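import Pool.Agent.Helper19.SP.Absorb
import Pool.Agent.Helper25.EC.Rst

/-! Exact entropy calculus: absorption of one fine real noise by a robustly unsaturated function (notes 82e, section 1,
REAL NOISE), at a finite level. -/

set_option autoImplicit false

namespace Pool.Agent.Helper81.TP

open Finset Filter Topology Pool.Agent.Helper69.RK Pool.Agent.Helper31.EC Pool.Agent.Helper31.EC.Sp

noncomputable section

variable {S : Sp}

/-- pointwise estimate -/
theorem quot_est (T T' t t' G G' K1 K2 K3 K4 db d1 dg d2 dv dr : ℝ) (hK1 : 0 ≤ K1) (hK3 : 0 ≤ K3)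
    (hK4 : 0 ≤ K4) (h1 : |T * t * G - T' * t' * G'| ≤ db) (h2 : |T - T'| ≤ d1) (h3 : |G - G'| ≤ dg)
    (h4 : |t'| ≤ K1 * d2) (h5 : |T| ≤ K3) (h6 : |G'| ≤ K4) (h7 : 1 ≤ K2 * |T|) (h8 : dv < |G|)
    (h9 : d1 ≤ dg) (h10 : d2 * dg = db) (h11 : dv * dr = db) (hdv : 0 < dv) (hd2 : 0 ≤ d2) :
    |t - t'| ≤ K2 * (1 + K1 * (K3 + K4)) * dr := by
  have e1 : T * G * (t - t') = (T * t * G - T' * t' * G') - t' * (T * G - T' * G') := by ring
  have e2 : |T * G - T' * G'| ≤ (K3 + K4) * dg := by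
    have : T * G - T' * G' = T * (G - G') + G' * (T - T') := by ring
    rw [this]
    calc |T * (G - G') + G' * (T - T')| ≤ |T * (G - G')| + |G' * (T - T')| := abs_add_le _ _
      _ = |T| * |G - G'| + |G'| * |T - T'| := by rw [abs_mul, abs_mul]
      _ ≤ K3 * dg + K4 * dg := by
          apply add_le_add
          · exact mul_le_mul h5 h3 (abs_nonneg _) hK3
          · exact mul_le_mul h6 (h2.trans h9) (abs_nonneg _) hK4
      _ = (K3 + K4) * dg := by ring
  have e3 : |T * G * (t - t')| ≤ (1 + K1 * (K3 + K4)) * db := by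
    rw [e1]
    calc |(T * t * G - T' * t' * G') - t' * (T * G - T' * G')|
        ≤ |T * t * G - T' * t' * G'| + |t' * (T * G - T' * G')| := abs_sub _ _
      _ ≤ db + (K1 * d2) * ((K3 + K4) * dg) := by
          apply add_le_add h1
          rw [abs_mul]
          exact mul_le_mul h4 e2 (abs_nonneg _) (by positivity)
      _ = db + K1 * (K3 + K4) * (d2 * dg) := by ring
      _ = (1 + K1 * (K3 + K4)) * db := by rw [h10]; ring
  have hK2 : 0 < K2 := by
    by_contra hc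
    push Not at hc
    have := mul_nonpos_of_nonpos_of_nonneg hc (abs_nonneg T)
    linarith
  have e4 : |G| * |t - t'| ≤ K2 * ((1 + K1 * (K3 + K4)) * db) := by
    have e5 : |G| * |t - t'| ≤ K2 * |T| * (|G| * |t - t'|) :=
      le_mul_of_one_le_left (mul_nonneg (abs_nonneg _) (abs_nonneg _)) h7
    have e6 : K2 * |T| * (|G| * |t - t'|) = K2 * |T * G * (t - t')| := by
      rw [abs_mul, abs_mul]; ring
    rw [e6] at e5
    exact e5.trans (mul_le_mul_of_nonneg_left e3 hK2.le)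
  have e7 : dv * |t - t'| ≤ dv * (K2 * (1 + K1 * (K3 + K4)) * dr) := by
    calc dv * |t - t'| ≤ |G| * |t - t'| := mul_le_mul_of_nonneg_right h8.le (abs_nonneg _)
      _ ≤ K2 * ((1 + K1 * (K3 + K4)) * db) := e4
      _ = dv * (K2 * (1 + K1 * (K3 + K4)) * dr) := by rw [← h11]; ring
  exact le_of_mul_le_mul_left e7 hdv

/-- a fine factor of a product is known, with relative precision, if the product and the other factors are known -/
theorem quot_dg {T : Sp} (th tau g : TR T) (X1 : T.L) (b s2 v ε : ℝ) (hb : b - s2 ≤ 1)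
    (hth : QS.Nd th) (hth1 : TR.dg th 1 ≤ X1) (htau : TR.Ag s2 tau 0) (hg1 : TR.dg g (b - s2) ≤ X1)
    (hlo : ∀ᶠ k in UF, ∀ ω, (T.F k).μ ω ≠ 0 → T.dl (v + ε) k < |TR.ev g k ω|) :
    TR.dg tau (b - v - ε) ≤ TR.dg (th * tau * g) b ⊔ X1 := by
  obtain ⟨A1, hA1, hc1⟩ := TR.exists_rep_dg (fun _ : Fin 1 => th * tau * g) b
    (TR.dg (th * tau * g) b ⊔ X1) (fun _ => le_sup_left)
  obtain ⟨A2, hA2, hc2⟩ := TR.exists_rep_dg (fun _ : Fin 1 => th) 1
    (TR.dg (th * tau * g) b ⊔ X1) (fun _ => hth1.trans le_sup_right)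
  obtain ⟨A3, hA3, hc3⟩ := TR.exists_rep_dg (fun _ : Fin 1 => g) (b - s2)
    (TR.dg (th * tau * g) b ⊔ X1) (fun _ => hg1.trans le_sup_right)
  obtain ⟨E1, K1, hE1, hK1, h1⟩ := htau
  obtain ⟨K2, hK2, h2⟩ := hth
  obtain ⟨K3, hK3, h3⟩ := th.2
  obtain ⟨K4, hK4, h4⟩ := g.2
  have hcl : cl (Inf.sup A1 (Inf.sup A2 A3)) = TR.dg (th * tau * g) b ⊔ X1 := by
    rw [cl_sup, cl_sup, hA1, hA2, hA3, sup_idem, sup_idem]
  rw [← hcl]
  apply TR.dg_le_cl tau (b - v - ε) _ (fun k ω => E1 k ω ∧ 1 ≤ K2 k * |TR.ev th k ω|) (hE1.and h2)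
    (fun k => K2 k * (1 + K1 k * (K3 k + K4 k)))
    (hK2.mul ((T.Sub_const zero_le_one).add (hK1.mul (hK3.add hK4))))
  filter_upwards [h1, h3, h4, hlo, hK1.1, hK3.1, hK4.1] with k a1 a3 a4 a5 b1 b3 b4 ω ω' m m' e e' _ hA
  have c1 := hc1 k ω ω' hA.1 0
  have c2 := hc2 k ω ω' hA.2.1 0
  have c3 := hc3 k ω ω' hA.2.2 0
  rw [TR.ev_mul, TR.ev_mul, TR.ev_mul, TR.ev_mul] at c1
  have c4 := a1 ω' m' e'.1
  rw [TR.ev_zero, sub_zero] at c4
  refine quot_est (TR.ev th k ω) (TR.ev th k ω') (TR.ev tau k ω) (TR.ev tau k ω') (TR.ev g k ω)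
    (TR.ev g k ω') (K1 k) (K2 k) (K3 k) (K4 k) (T.dl b k) (T.dl 1 k) (T.dl (b - s2) k) (T.dl s2 k)
    (T.dl (v + ε) k) (T.dl (b - v - ε) k) b1 b3 b4 c1 c2 c3 c4 (a3 ω m) (a4 ω' m') e.2 (a5 ω m)
    (T.dl_anti hb k) ?_ ?_ (T.dl_pos _ k) (T.dl_pos _ k).le
  · rw [← dl_add]; congr 1; ring
  · rw [← dl_add]; congr 1; ring

/-- a product of small functions is small -/
theorem ag_mul_small {T : Sp} {f g : TR T} {r s : ℝ} (hf : TR.Ag r f 0) (K : ℕ → ℝ) (hK : T.Sub K)
    (hg : ∀ᶠ k in UF, ∀ ω, (T.F k).μ ω ≠ 0 → |TR.ev g k ω| ≤ K k * T.dl s k) : TR.Ag (r + s) (f * g) 0 := by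
  obtain ⟨E, L, hE, hL, h⟩ := hf
  refine ⟨E, fun k => L k * K k, hE, hL.mul hK, ?_⟩
  filter_upwards [h, hg, hL.1] with k a b c ω m e
  have a1 := a ω m e
  rw [TR.ev_zero, sub_zero] at a1 ⊢
  rw [TR.ev_mul, abs_mul, dl_add]
  calc |TR.ev f k ω| * |TR.ev g k ω| ≤ (L k * T.dl r k) * (K k * T.dl s k) :=
        mul_le_mul a1 (b ω m) (abs_nonneg _) (mul_nonneg c (T.dl_pos _ k).le)
    _ = L k * K k * (T.dl r k * T.dl s k) := by ring

open QS

/-- the remaining digits of a function which is real beyond level `s` -/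
theorem h_fine {T : Sp} (tau : QS T) (X : T.L) (s : ℝ) (h1 : h (dg tau 1) X = 1 - s) {r : ℝ} (hr : r ≤ 1) :
    r - s ≤ h (dg tau r) X := by
  have a1 : h (dg tau 1) X ≤ h (dg tau 1) (dg tau r) + h (dg tau r) X := by
    have := h_triangle (dg tau 1) (dg tau r) X
    exact this.trans (add_le_add (h_anti le_sup_left) le_rfl)
  have a2 := h_dg_dg tau hr
  linarith

/-- a small function which is real beyond its size stays so on events of positive probability -/
theorem fine_rest (tau : QS S) (X : S.L) (s : ℝ) (hs1 : s ≤ 1) (htau : tau ∈ Id S s)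
    (h1 : h (dg tau 1) X = 1 - s) (E : ∀ k, (S.F k).Ω → Prop) (hE : 0 < ul (S.pr E)) :
    h (restL E hE (dg tau 1)) (restL E hE X) = 1 - s := by
  apply h_rest_max E hE h1
  intro E' hE'
  have a1 : rest E' hE' tau ∈ Id (S.rest E') s := by
    obtain ⟨f, rfl⟩ := mk_surj tau
    rw [rest_mk, mk_mem_Id hs1]
    have := TR.Ag.rest E' hE' ((mk_mem_Id hs1).mp htau)
    rwa [map_zero] at this
  have a2 := dg_of_mem_Id a1 le_rfl hs1
  have a3 := h_dg_dg (rest E' hE' tau) hs1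
  rw [a2, h_bot, rest_dg] at a3
  exact (h_le_H _ _).trans a3

/-- **ABSORPTION of one fine real noise.** -/
theorem absorb (z2 de zh e th tau g : QS S) (F : S.L) (b s2 rho : ℝ) (hrho : 0 < rho) (hs2 : 0 ≤ s2)
    (hsb : s2 ≤ b) (hb : b ≤ 1) (hz : z2 + de - (zh + e + th * tau * g) ∈ Id S b) (hde : dg de b ≤ F)
    (he : dg e b ≤ F) (hth : IsUnit th) (hthF : dg th 1 ≤ F) (htau : tau ∈ Id S s2)
    (hr : h (dg tau 1) (F ⊔ dg zh 1) = 1 - s2) (hg : dg g (b - s2) ≤ F) (hu : UnS z2 F 0 rho) :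
    g ∈ Id S (b - s2) := by
  have hbs : b - s2 ≤ 1 := by linarith
  rcases (sub_nonneg.mpr hsb).eq_or_lt with h0 | h0
  · exact mem_Id_nonpos (by linarith)
  by_contra hne
  obtain ⟨gR, rfl⟩ := mk_surj g
  obtain ⟨tR, rfl⟩ := mk_surj tau
  obtain ⟨thR, rfl⟩ := mk_surj th
  rw [mk_mem_Id hbs] at hne
  have h1 : ∃ δ : ℝ, 0 < δ ∧ δ ≤ b - s2 ∧ ¬ Typ (fun k ω => |TR.ev gR k ω| ≤ S.dl (b - s2 - δ) k) := by
    by_contra hcon
    push Not at hcon
    apply hne
    apply TR.ag_of_levels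
    intro δ hδ
    have h2 := hcon (min δ (b - s2)) (lt_min hδ h0) (min_le_right _ _)
    refine h2.mono (Eventually.of_forall fun k ω _ h3 => ?_)
    rw [TR.ev_zero, sub_zero]
    refine h3.trans (S.dl_anti ?_ k)
    have := min_le_left δ (b - s2)
    linarith
  obtain ⟨δ, hδ, hδ1, hnt⟩ := h1
  have hε : 0 < rho * δ / 2 := by positivity
  obtain ⟨v, K, hv0, hvs, hK, hpos⟩ := Pool.Agent.Helper25.EC.bin gR (b - s2 - δ) (rho * δ / 2)
    (by linarith) hε hnt
  generalize hE0 : (fun k ω => S.dl (v + rho * δ / 2) k < |TR.ev gR k ω| ∧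
    |TR.ev gR k ω| ≤ K k * S.dl v k) = E at hpos
  have hmem := Pool.Agent.Helper25.EC.rest_mem E hpos
  obtain ⟨X1, hX1⟩ : ∃ X1 : (S.rest E).L, X1 = restL E hpos F ⊔ restL E hpos (dg zh 1) := ⟨_, rfl⟩
  have hFX : restL E hpos F ≤ X1 := by rw [hX1]; exact le_sup_left
  -- the digits of the noise
  have c2 : h (dg (rest E hpos (mk tR)) 1) X1 = 1 - s2 := by
    have := fine_rest (mk tR) (F ⊔ dg zh 1) s2 (by linarith) htau hr E hpos
    rw [restL_sup, ← hX1, ← rest_dg] at this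
    exact this
  obtain ⟨Y, hY⟩ : ∃ Y : QS S, Y = mk thR * mk tR * mk gR := ⟨_, rfl⟩
  obtain ⟨YE, hYE⟩ : ∃ YE : QS (S.rest E), YE = rest E hpos Y := ⟨_, rfl⟩
  have hYm : YE = mk (TR.rest E thR * TR.rest E tR * TR.rest E gR) := by
    rw [hYE, hY, map_mul, map_mul, rest_mk, rest_mk, rest_mk, ← map_mul, ← map_mul]
  have htE : TR.Ag s2 (TR.rest E tR) 0 := by
    have := TR.Ag.rest E hpos ((mk_mem_Id (show s2 ≤ 1 by linarith)).mp htau)
    rwa [map_zero] at this
  have hthE : Nd (TR.rest E thR) := by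
    obtain ⟨K2, hK2, h2⟩ := isUnit_mk.mp hth
    exact ⟨K2, hK2, h2.rest E hpos⟩
  have hrange : b - v - rho * δ / 2 ≤ 1 := by linarith
  have c1 : dg (rest E hpos (mk tR)) (b - v - rho * δ / 2) ≤ dg YE b ⊔ X1 := by
    have := quot_dg (TR.rest E thR) (TR.rest E tR) (TR.rest E gR) X1 b s2 v (rho * δ / 2) hbs hthE
      (by
        rw [TR.rest_dg E hpos, ← dg_mk thR le_rfl]
        exact (restL_mono E hpos hthF).trans hFX) htE
      (by
        rw [TR.rest_dg E hpos, ← dg_mk gR hbs]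
        exact (restL_mono E hpos hg).trans hFX)
      (by
        filter_upwards [hmem] with k hk ω m
        have := (hk ω m).2
        rw [← hE0] at this
        exact this.1)
    rw [rest_mk, dg_mk _ hrange, hYm, dg_mk _ hb]
    exact this
  have c3 : dg YE (s2 + v) = ⊥ := by
    have hle : s2 + v ≤ 1 := by linarith
    have a1 : YE ∈ Id (S.rest E) (s2 + v) := by
      rw [hYm, mk_mem_Id hle]
      have a2 := ag_mul_small (T := S.rest E) (s := v) htE K hK (g := TR.rest E gR) (by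
        filter_upwards [hmem] with k hk ω m
        have := (hk ω m).2
        rw [← hE0] at this
        exact this.2)
      have a3 := (TR.Ag.refl (s2 + v) (TR.rest E thR)).mul a2
      rwa [mul_zero, ← mul_assoc] at a3
    exact dg_of_mem_Id a1 le_rfl hle
  -- the digits of `z2`
  have hlev : s2 + v ≤ b := by linarith
  have c4 : dg Y b ≤ dg z2 b ⊔ (F ⊔ dg zh 1) := by
    have a1 : Y - ((z2 + de) - (zh + e)) ∈ Id S b := by
      have : Y - ((z2 + de) - (zh + e)) = -(z2 + de - (zh + e + mk thR * mk tR * mk gR)) := by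
        rw [hY]; ring
      rw [this]
      exact (Id S b).neg_mem hz
    rw [dg_eq_of_sub_mem a1 le_rfl hb]
    have b1 := dg_sub_le (z2 + de) (zh + e) hb
    have b2 := dg_add_le z2 de hb
    have b3 := dg_add_le zh e hb
    have b4 := dg_mono zh hb
    order
  have c5 : dg z2 (s2 + v) ≤ dg Y (s2 + v) ⊔ (F ⊔ dg zh 1) := by
    have hl1 : s2 + v ≤ 1 := hlev.trans hb
    have a1 : z2 - ((zh + e + Y) - de) ∈ Id S b := by
      have : z2 - ((zh + e + Y) - de) = z2 + de - (zh + e + mk thR * mk tR * mk gR) := by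
        rw [hY]; ring
      rw [this]
      exact hz
    rw [dg_eq_of_sub_mem a1 hlev hl1]
    have b1 := dg_sub_le (zh + e + Y) de hl1
    have b2 := dg_add_le (zh + e) Y hl1
    have b3 := dg_add_le zh e hl1
    have b4 := dg_mono zh hl1
    have b5 := dg_mono e hlev
    have b6 := dg_mono de hlev
    order
  have c4' : dg YE b ≤ restL E hpos (dg z2 b) ⊔ X1 := by
    have := restL_mono E hpos c4
    rw [restL_sup, restL_sup, ← hX1] at this
    rw [hYE, rest_dg]
    exact this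
  have c5' : restL E hpos (dg z2 (s2 + v)) ≤ X1 := by
    have := restL_mono E hpos c5
    have e1 : restL E hpos (dg Y (s2 + v)) = ⊥ := by rw [← rest_dg, ← hYE, c3]
    rw [restL_sup, restL_sup, ← hX1, e1, bot_sup_eq] at this
    exact this
  -- comparison
  have d1 : b - v - rho * δ / 2 - s2 ≤ h (restL E hpos (dg z2 b)) (restL E hpos (dg z2 (s2 + v)) ⊔ restL E hpos F) := by
    calc b - v - rho * δ / 2 - s2 ≤ h (dg (rest E hpos (mk tR)) (b - v - rho * δ / 2)) X1 := h_fine _ X1 s2 c2 hrange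
      _ ≤ h (dg YE b ⊔ X1) X1 := h_mono c1
      _ = h (dg YE b) X1 := h_sup_right_of_le le_rfl
      _ ≤ h (restL E hpos (dg z2 b) ⊔ X1) X1 := h_mono c4'
      _ = h (restL E hpos (dg z2 b)) X1 := h_sup_right_of_le le_rfl
      _ ≤ h (restL E hpos (dg z2 b)) (restL E hpos (dg z2 (s2 + v)) ⊔ restL E hpos F) :=
          h_anti (sup_le c5' hFX)
  have d2 := hu S (Pj.id S) E hpos (s2 + v) b (by linarith) hlev hb
  rw [Pj.id_map, Pj.id_map, restL_sup] at d2
  have d3 : rho * (b - (s2 + v)) ≤ rho * δ / 2 := by nlinarith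
  have d4 : rho * δ ≤ rho * (b - (s2 + v)) := mul_le_mul_of_nonneg_left (by linarith) hrho.le
  linarith

end

end Pool.Agent.Helper81.TP
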