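import Pool.Agent.Helper38.NS.Blk
import Pool.Agent.Helper31.EC.Rl

/-! The block of the thin parallelogram by exact copies (notes 82e, section 1): stars of points with labels, thin
Z-shapes, rectangles, and all their independences. -/

set_option autoImplicit false

namespace Pool.Agent.Helper81.TP

open Pool.Agent.Helper31.EC Pool.Agent.Helper38.NS QS

noncomputable section

/-- a line `(a, x, l)` with a height `t`: base point `(t, a + t x)`, vertical coordinates `v`, label functions `k` -/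
structure TS (S : Sp) (ν μ κ : Type) [Fintype ν] [Fintype μ] [Fintype κ] where
  t : QS S
  a : QS S
  x : QS S
  v : ν → QS S
  l : μ → QS S
  k : κ → QS S

section Gen

variable {S : Sp}

theorem map_dg_eq {T : Sp} {p p' : Pj T S} {f : QS S} (hf : p.qs f = p'.qs f) (r : ℝ) :
    p.map (dg f r) = p'.map (dg f r) := by
  rw [← p.qs_dg, ← p'.qs_dg, hf]

theorem map_vd_eq {T : Sp} {p p' : Pj T S} {ι : Type} [Fintype ι] {f : ι → QS S}
    (hf : ∀ i, p.qs (f i) = p'.qs (f i)) (r : ℝ) : p.map (vd f r) = p'.map (vd f r) := by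
  rw [← p.qs_vd, ← p'.qs_vd]
  exact vd_congr hf r

theorem vd_two (f g : QS S) (r : ℝ) : vd ![f, g] r = dg f r ⊔ dg g r := by
  apply le_antisymm
  · rw [vd_le]
    intro i
    fin_cases i
    · exact le_sup_left
    · exact le_sup_right
  · exact sup_le (dg_le_vd ![f, g] r 0) (dg_le_vd ![f, g] r 1)

/-- entropies of a small function -/
theorem H_small {f : QS S} {r : ℝ} (hr : r ≤ 1) (hf : f ∈ Id S r) : H (dg f 1) ≤ 1 - r := by
  have h1 := dg_of_mem_Id hf le_rfl hr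
  have h2 := h_dg_dg f hr
  rw [h1, h_bot] at h2
  exact h2

theorem h_small {f : QS S} {r : ℝ} (hr : r ≤ 1) (hf : f ∈ Id S r) (A : S.L) : h (dg f 1) A ≤ 1 - r :=
  (h_le_H _ _).trans (H_small hr hf)

theorem H_dg1 (f : QS S) : H (dg f 1) ≤ 1 := H_dg_le f zero_le_one

theorem h_dg1 (f : QS S) (A : S.L) : h (dg f 1) A ≤ 1 := (h_le_H _ _).trans (H_dg1 f)

/-- entropy from conditional independence -/
theorem h_ci {L : Type*} [PM L] {A B C : L} (h0 : I A B C = 0) {D : L} (hD : D ≤ B ⊔ C) (hC : C ≤ D) :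
    h A D = h A C := by
  have h1 : I A D C = 0 := I_zero_mono h0 le_sup_left hD
  rw [I_zero_iff_h] at h1
  rw [← h1, sup_eq_left.mpr hC]

/-- independence from a maximal conditional entropy -/
theorem I_of_max {L : Type*} [PM L] {A B C : L} {M : ℝ} (h1 : h A C ≤ M) (h2 : M ≤ h A (B ⊔ C)) :
    I A B C = 0 := ind_of_h (h1.trans h2)

end Gen

namespace TS

variable {S : Sp} {ν μ κ : Type} [Fintype ν] [Fintype μ] [Fintype κ] (s : TS S ν μ κ)

/-- base coordinate of the point -/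
def y : QS S := s.a + s.t * s.x
/-- data of the line -/
def fl : Fin 2 ⊕ μ → QS S := Sum.elim ![s.a, s.x] s.l
/-- data of the point, with labels -/
def fp : Fin 2 ⊕ (ν ⊕ κ) → QS S := Sum.elim ![s.t, s.y] (Sum.elim s.v s.k)
def iX : S.L := dg s.x 1
def iT : S.L := dg s.t 1
def iY : S.L := dg s.y 1
def iA : S.L := dg s.a 1
def iL : S.L := vd s.fl 1
def iP : S.L := vd s.fp 1
def iK : S.L := vd s.k 1

/-- directions are independent of the point and its labels; heights are real over the line; over the line and the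
labels they are real beyond level `u` -/
structure Hyp (u : ℝ) : Prop where
  s0 : 0 ≤ u
  s1 : u ≤ 1
  h1 : I s.iX s.iP ⊥ = 0
  h2 : 1 - u ≤ h s.iT (s.iL ⊔ s.iK)
  h3 : 1 ≤ h s.iT s.iL
  hk : ∃ j, s.t - s.k j ∈ Id S u

theorem iT_le : s.iT ≤ s.iP := dg_le_vd s.fp 1 (Sum.inl 0)

theorem iY_le : s.iY ≤ s.iP := dg_le_vd s.fp 1 (Sum.inl 1)

theorem iX_le : s.iX ≤ s.iL := dg_le_vd s.fl 1 (Sum.inl 1)

theorem iA_le : s.iA ≤ s.iL := dg_le_vd s.fl 1 (Sum.inl 0)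

theorem iK_le : s.iK ≤ s.iP := by
  unfold iK
  rw [vd_le]
  exact fun j => dg_le_vd s.fp 1 (Sum.inr (Sum.inr j))

/-- two lines through one point, with the same labels -/
structure Star where
  D : Sp
  p1 : Pj D S
  p2 : Pj D S
  com : ∀ i, p1.qs (s.fp i) = p2.qs (s.fp i)
  ci : ∀ x y, I (p1.map x) (p2.map y) (p1.map s.iP) = 0

theorem exists_star : Nonempty s.Star := by
  obtain ⟨D, p1, p2, c, i, -⟩ := exists_copyS s.fp
  exact ⟨⟨D, p1, p2, c, i⟩⟩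

namespace Star

variable {s} (w : s.Star)

theorem eP : w.p2.map s.iP = w.p1.map s.iP := (map_vd_eq w.com 1).symm

theorem ct : w.p1.qs s.t = w.p2.qs s.t := w.com (Sum.inl 0)

theorem cy : w.p1.qs s.y = w.p2.qs s.y := w.com (Sum.inl 1)

theorem cv (i : ν) : w.p1.qs (s.v i) = w.p2.qs (s.v i) := w.com (Sum.inr (Sum.inl i))

theorem ck (j : κ) : w.p1.qs (s.k j) = w.p2.qs (s.k j) := w.com (Sum.inr (Sum.inr j))

theorem eT : w.p2.map s.iT = w.p1.map s.iT := (map_dg_eq w.ct 1).symm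

theorem eK : w.p2.map s.iK = w.p1.map s.iK := (map_vd_eq w.ck 1).symm

/-- the direction of the second line is independent of the first line and the point -/
theorem d1 {u : ℝ} (hs : s.Hyp u) : I (w.p2.map s.iX) (w.p1.map s.iL ⊔ w.p1.map s.iP) ⊥ = 0 := by
  have h1 := w.p2.I_map s.iX s.iP ⊥
  rw [hs.h1, w.p2.map_bot, w.eP] at h1
  have h2 := ind_add h1 (ind_symm (w.ci s.iL s.iX)) (by rw [sup_bot_eq])
  rwa [sup_comm] at h2

theorem d1' {u : ℝ} (hs : s.Hyp u) : I (w.p1.map s.iX) (w.p2.map s.iL ⊔ w.p1.map s.iP) ⊥ = 0 := by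
  have h1 := w.p1.I_map s.iX s.iP ⊥
  rw [hs.h1, w.p1.map_bot] at h1
  have h2 := ind_add h1 (w.ci s.iX s.iL) (by rw [sup_bot_eq])
  rwa [sup_comm] at h2

theorem T_le : w.p1.map s.iT ≤ w.p1.map s.iP := w.p1.map_mono s.iT_le

theorem K_le : w.p1.map s.iK ≤ w.p1.map s.iP := w.p1.map_mono s.iK_le

theorem d2 {u : ℝ} (hs : s.Hyp u) : 1 - u ≤ h (w.p1.map s.iT) (w.p1.map s.iL ⊔ w.p2.map s.iX ⊔ w.p1.map s.iK) := by
  have a1 := w.T_le
  have a2 := w.K_le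
  have h1 : I (w.p1.map s.iT) (w.p2.map s.iX) (w.p1.map s.iL ⊔ w.p1.map s.iK) = 0 :=
    ind_symm (ind_of (w.d1 hs) bot_le (by order) le_sup_left (by order))
  rw [I_zero_iff_h] at h1
  have h2 : h (w.p1.map s.iT) (w.p1.map s.iL ⊔ w.p1.map s.iK) = h s.iT (s.iL ⊔ s.iK) := by
    rw [← w.p1.map_sup, w.p1.h_map]
  have h3 : w.p1.map s.iL ⊔ w.p2.map s.iX ⊔ w.p1.map s.iK =
      w.p2.map s.iX ⊔ (w.p1.map s.iL ⊔ w.p1.map s.iK) := by
    rw [sup_comm (w.p1.map s.iL), sup_assoc]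
  rw [h3, h1, h2]
  exact hs.h2

theorem d2' {u : ℝ} (hs : s.Hyp u) : 1 - u ≤ h (w.p1.map s.iT) (w.p2.map s.iL ⊔ w.p1.map s.iX ⊔ w.p1.map s.iK) := by
  have a1 := w.T_le
  have a2 := w.K_le
  have h1 : I (w.p1.map s.iT) (w.p1.map s.iX) (w.p2.map s.iL ⊔ w.p1.map s.iK) = 0 :=
    ind_symm (ind_of (w.d1' hs) bot_le (by order) le_sup_left (by order))
  rw [I_zero_iff_h] at h1
  have h2 : h (w.p1.map s.iT) (w.p2.map s.iL ⊔ w.p1.map s.iK) = h s.iT (s.iL ⊔ s.iK) := by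
    rw [← w.eT, ← w.eK, ← w.p2.map_sup, w.p2.h_map]
  have h3 : w.p2.map s.iL ⊔ w.p1.map s.iX ⊔ w.p1.map s.iK =
      w.p1.map s.iX ⊔ (w.p2.map s.iL ⊔ w.p1.map s.iK) := by
    rw [sup_comm (w.p2.map s.iL), sup_assoc]
  rw [h3, h1, h2]
  exact hs.h2

theorem d3' {u : ℝ} (hs : s.Hyp u) : 1 ≤ h (w.p1.map s.iT) (w.p2.map s.iL ⊔ w.p1.map s.iX) := by
  have a1 := w.T_le
  have h1 : I (w.p1.map s.iT) (w.p1.map s.iX) (w.p2.map s.iL) = 0 :=
    ind_symm (ind_of (w.d1' hs) bot_le (by order) le_sup_left (by order))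
  rw [I_zero_iff_h] at h1
  have h2 : h (w.p1.map s.iT) (w.p2.map s.iL) = h s.iT s.iL := by
    rw [← w.eT, w.p2.h_map]
  rw [sup_comm, h1, h2]
  exact hs.h3

/-- the two directions are independent of the point and its labels -/
theorem d4 {u : ℝ} (hs : s.Hyp u) : I (w.p1.map s.iP) (w.p1.map s.iX ⊔ w.p2.map s.iX) ⊥ = 0 := by
  have h1 := w.p1.I_map s.iX s.iP ⊥
  rw [hs.h1, w.p1.map_bot] at h1
  have a1 : w.p1.map s.iX ≤ w.p1.map s.iL := w.p1.map_mono s.iX_le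
  have h2 : I (w.p1.map s.iP) (w.p2.map s.iX) (w.p1.map s.iX) = 0 :=
    ind_symm (ind_of (w.d1 hs) bot_le (by order) le_sup_left (by order))
  exact ind_add (ind_symm h1) h2 (by rw [sup_bot_eq])

end Star

/-- thin Z-shape: two stars with the same first line, the same direction of the second line and the same labels -/
structure Zed (w : s.Star) where
  D : Sp
  q1 : Pj D w.D
  q2 : Pj D w.D
  cl : ∀ i, q1.qs (w.p1.qs (s.fl i)) = q2.qs (w.p1.qs (s.fl i))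
  cx : q1.qs (w.p2.qs s.x) = q2.qs (w.p2.qs s.x)
  ck : ∀ j, q1.qs (w.p1.qs (s.k j)) = q2.qs (w.p1.qs (s.k j))
  ci : ∀ x y, I (q1.map x) (q2.map y)
    (q1.map (w.p1.map s.iL ⊔ w.p2.map s.iX ⊔ w.p1.map s.iK)) = 0

theorem exists_zed (w : s.Star) : Nonempty (s.Zed w) := by
  obtain ⟨D, q1, q2, c, i, -⟩ := exists_copyS
    (Sum.elim (fun i => w.p1.qs (s.fl i)) (Sum.elim (fun _ : Unit => w.p2.qs s.x)
      (fun j => w.p1.qs (s.k j))))
  refine ⟨⟨D, q1, q2, fun j => c (Sum.inl j), c (Sum.inr (Sum.inl ())),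
    fun j => c (Sum.inr (Sum.inr j)), ?_⟩⟩
  rw [vd_sum, vd_sum, vd_unit, w.p1.qs_vd, w.p1.qs_vd, w.p2.qs_dg, ← sup_assoc] at i
  exact i

namespace Zed

variable {s} {w : s.Star} (v : s.Zed w)

/-- common information -/
def V : v.D.L := v.q1.map (w.p1.map s.iL ⊔ w.p2.map s.iX ⊔ w.p1.map s.iK)
/-- heights of the two stars -/
def T0 : v.D.L := v.q1.map (w.p1.map s.iT)
def T0' : v.D.L := v.q2.map (w.p1.map s.iT)
/-- direction of the common line -/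
def U : v.D.L := v.q2.map (w.p1.map s.iX)
/-- the second line of the second star -/
def K' : v.D.L := v.q2.map (w.p2.map s.iL)
/-- difference of the heights -/
def tau : QS v.D := v.q1.qs (w.p1.qs s.t) - v.q2.qs (w.p1.qs s.t)

theorem eL : v.q2.map (w.p1.map s.iL) = v.q1.map (w.p1.map s.iL) := by
  have h1 := map_vd_eq (S := w.D) (p := v.q1) (p' := v.q2) (f := fun i => w.p1.qs (s.fl i)) v.cl 1
  rw [w.p1.qs_vd] at h1
  exact h1.symm

theorem eX : v.q2.map (w.p2.map s.iX) = v.q1.map (w.p2.map s.iX) := by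
  have h1 := map_dg_eq (S := w.D) (p := v.q1) (p' := v.q2) v.cx 1
  rw [w.p2.qs_dg] at h1
  exact h1.symm

theorem eK : v.q2.map (w.p1.map s.iK) = v.q1.map (w.p1.map s.iK) := by
  have h1 := map_vd_eq (S := w.D) (p := v.q1) (p' := v.q2) (f := fun i => w.p1.qs (s.k i)) v.ck 1
  rw [w.p1.qs_vd] at h1
  exact h1.symm

theorem eV : v.q2.map (w.p1.map s.iL ⊔ w.p2.map s.iX ⊔ w.p1.map s.iK) = v.V := by
  unfold V
  rw [v.q2.map_sup, v.q2.map_sup, v.eL, v.eX, v.eK, ← v.q1.map_sup, ← v.q1.map_sup]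

theorem eU : v.q1.map (w.p1.map s.iX) = v.U := by
  have h1 : v.q1.qs (w.p1.qs s.x) = v.q2.qs (w.p1.qs s.x) := v.cl (Sum.inl 1)
  have h2 := map_dg_eq h1 1
  rw [w.p1.qs_dg] at h2
  exact h2

theorem T0_eq : v.T0 = dg (v.q1.qs (w.p1.qs s.t)) 1 := by
  unfold T0 iT
  rw [v.q1.qs_dg, w.p1.qs_dg]

theorem T0'_eq : v.T0' = dg (v.q2.qs (w.p1.qs s.t)) 1 := by
  unfold T0' iT
  rw [v.q2.qs_dg, w.p1.qs_dg]

theorem tau_le : dg v.tau 1 ≤ v.T0 ⊔ v.T0' := by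
  rw [T0_eq, T0'_eq]
  exact dg_sub_le _ _ le_rfl

theorem T0'_le : v.T0' ≤ v.T0 ⊔ dg v.tau 1 := by
  rw [T0_eq, T0'_eq]
  have h1 : v.q2.qs (w.p1.qs s.t) = v.q1.qs (w.p1.qs s.t) - v.tau := by unfold tau; ring
  have h2 := dg_sub_le (v.q1.qs (w.p1.qs s.t)) v.tau le_rfl
  rw [← h1] at h2
  exact h2

theorem T0_le : v.T0 ≤ v.T0' ⊔ dg v.tau 1 := by
  rw [T0_eq, T0'_eq]
  have h1 : v.q1.qs (w.p1.qs s.t) = v.q2.qs (w.p1.qs s.t) + v.tau := by unfold tau; ring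
  have h2 := dg_add_le (v.q2.qs (w.p1.qs s.t)) v.tau le_rfl
  rw [← h1] at h2
  exact h2

theorem tau_mem {u : ℝ} (hs : s.Hyp u) : v.tau ∈ Id v.D u := by
  obtain ⟨j, hj⟩ := hs.hk
  have h1 := (v.q1.qs_mem_Id hs.s1).mpr ((w.p1.qs_mem_Id hs.s1).mpr hj)
  have h2 := (v.q2.qs_mem_Id hs.s1).mpr ((w.p1.qs_mem_Id hs.s1).mpr hj)
  rw [map_sub, map_sub] at h1 h2
  have h3 := (Id v.D u).sub_mem h1 h2
  have h4 : v.q1.qs (w.p1.qs s.t) - v.q1.qs (w.p1.qs (s.k j)) -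
      (v.q2.qs (w.p1.qs s.t) - v.q2.qs (w.p1.qs (s.k j))) = v.tau := by
    rw [v.ck j]; unfold tau; ring
  rwa [h4] at h3

theorem e1 {u : ℝ} (hs : s.Hyp u) (y : w.D.L) : 1 - u ≤ h v.T0' (v.V ⊔ v.q1.map y) := by
  have h1 : I v.T0' (v.q1.map y) v.V = 0 := ind_symm (v.ci y (w.p1.map s.iT))
  rw [I_zero_iff_h, sup_comm] at h1
  rw [h1, ← v.eV]
  unfold T0'
  rw [v.q2.h_map]
  exact w.d2 hs

theorem e1' {u : ℝ} (hs : s.Hyp u) (y : w.D.L) : 1 - u ≤ h v.T0 (v.V ⊔ v.q2.map y) := by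
  have h1 : I v.T0 (v.q2.map y) v.V = 0 := v.ci (w.p1.map s.iT) y
  rw [I_zero_iff_h, sup_comm] at h1
  rw [h1]
  unfold T0 V
  rw [v.q1.h_map]
  exact w.d2 hs

/-- the difference of the heights is real beyond level `u` over the first star -/
theorem e2 {u : ℝ} (hs : s.Hyp u) (y : w.D.L) : 1 - u ≤ h (dg v.tau 1) (v.q1.map y) := by
  have h1 := v.e1 hs (y ⊔ w.p1.map s.iT)
  have a1 := v.T0'_le
  have a2 : v.q1.map (y ⊔ w.p1.map s.iT) = v.q1.map y ⊔ v.T0 := v.q1.map_sup _ _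
  rw [a2] at h1
  calc 1 - u ≤ h v.T0' (v.V ⊔ (v.q1.map y ⊔ v.T0)) := h1
    _ ≤ h (dg v.tau 1 ⊔ (v.V ⊔ (v.q1.map y ⊔ v.T0))) (v.V ⊔ (v.q1.map y ⊔ v.T0)) := h_mono (by order)
    _ = h (dg v.tau 1) (v.V ⊔ (v.q1.map y ⊔ v.T0)) := h_sup_right_of_le le_rfl
    _ ≤ h (dg v.tau 1) (v.q1.map y) := h_anti (by order)

theorem e2' {u : ℝ} (hs : s.Hyp u) (y : w.D.L) : 1 - u ≤ h (dg v.tau 1) (v.q2.map y) := by
  have h1 := v.e1' hs (y ⊔ w.p1.map s.iT)
  have a1 := v.T0_le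
  have a2 : v.q2.map (y ⊔ w.p1.map s.iT) = v.q2.map y ⊔ v.T0' := v.q2.map_sup _ _
  rw [a2] at h1
  calc 1 - u ≤ h v.T0 (v.V ⊔ (v.q2.map y ⊔ v.T0')) := h1
    _ ≤ h (dg v.tau 1 ⊔ (v.V ⊔ (v.q2.map y ⊔ v.T0'))) (v.V ⊔ (v.q2.map y ⊔ v.T0')) := h_mono (by order)
    _ = h (dg v.tau 1) (v.V ⊔ (v.q2.map y ⊔ v.T0')) := h_sup_right_of_le le_rfl
    _ ≤ h (dg v.tau 1) (v.q2.map y) := h_anti (by order)

/-- the second height is real over the second line, the direction of the common line and the difference -/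
theorem e3 {u : ℝ} (hs : s.Hyp u) : 1 ≤ h v.T0' (v.K' ⊔ v.U ⊔ dg v.tau 1) := by
  have h1 : 1 ≤ h v.T0' (v.K' ⊔ v.U) := by
    unfold T0' K' U
    rw [← v.q2.map_sup, v.q2.h_map]
    exact w.d3' hs
  have h2 : 1 - u ≤ h (dg v.tau 1) (v.T0' ⊔ (v.K' ⊔ v.U)) := by
    have := v.e2' hs (w.p1.map s.iT ⊔ (w.p2.map s.iL ⊔ w.p1.map s.iX))
    rw [v.q2.map_sup, v.q2.map_sup] at this
    exact this
  have h3 := h_chain v.T0' (dg v.tau 1) (v.K' ⊔ v.U)
  have h4 := h_chain (dg v.tau 1) v.T0' (v.K' ⊔ v.U)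
  have h5 := h_small hs.s1 (v.tau_mem hs) (v.K' ⊔ v.U)
  rw [sup_comm (dg v.tau 1) v.T0'] at h4
  rw [sup_comm (dg v.tau 1) (v.K' ⊔ v.U)] at h4
  linarith

end Zed

end TS

end

end Pool.Agent.Helper81.TP
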