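import Pool.Agent.Helper81.TP.Rct

/-! The difference of heights in the thin parallelogram stays real over the block without it, the last vertex and a
copy of the first one; no fullness of the vertical coordinate is used. -/

set_option autoImplicit false

namespace Pool.Agent.Helper81.TP

open Pool.Agent.Helper31.EC Pool.Agent.Helper38.NS QS

noncomputable section

namespace TS

variable {S : Sp} {ν μ κ : Type} [Fintype ν] [Fintype μ] [Fintype κ] {s : TS S ν μ κ}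

namespace Rct

variable {w : s.Star} {v : s.Zed w} (g : Rct v)

/-- the block without the difference of heights, with the base point of the first vertex -/
def B' : g.D.L := g.pj0.map (s.iT ⊔ s.iY) ⊔ (g.iU ⊔ g.iX1 ⊔ g.iT1)

/-- the direction of the outer parallel lines -/
theorem x_eq : g.s1.qs (v.q1.qs (w.p2.qs s.x)) = g.s2.qs (v.q1.qs (w.p2.qs s.x)) := by
  rw [v.cx]
  exact g.cl (Sum.inl 1)

theorem iU_eq : g.iU = g.s2.map (v.q1.map (w.p1.map s.iX)) := by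
  unfold iU
  rw [← g.eU, v.eU]

theorem iX1_eq : g.iX1 = g.s2.map (v.q1.map (w.p2.map s.iX)) := by
  have h1 := map_dg_eq (S := v.D) (p := g.s1) (p' := g.s2) (f := v.q1.qs (w.p2.qs s.x)) g.x_eq 1
  rw [v.q1.qs_dg, w.p2.qs_dg] at h1
  exact h1

theorem iT0_eq : g.pj0.map s.iT = g.s1.map v.T0 := by
  rw [g.pj0_map, w.eT]
  rfl

/-- the block without the difference is known to the second Z-shape and the height of the first vertex -/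
theorem B'_le : g.B' ≤ g.s2.map (v.q1.map (w.p1.map s.iX ⊔ w.p2.map s.iL ⊔ w.p1.map s.iT)) ⊔ g.s1.map v.T0 := by
  have hY : g.pj0.map s.iY ≤ g.s2.map (v.q1.map (w.p2.map s.iL)) ⊔ g.s1.map v.T0 := by
    have e1 : g.pj0.qs s.y = g.s2.qs (v.q1.qs (w.p2.qs s.a)) +
        g.s1.qs (v.q1.qs (w.p1.qs s.t)) * g.s2.qs (v.q1.qs (w.p2.qs s.x)) := by
      rw [g.pj0_qs, ← g.base_eq, ← g.x_eq, w.ct]
      unfold y
      rw [map_add, map_add, map_add, map_mul, map_mul, map_mul]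
    unfold iY
    rw [← g.pj0.qs_dg, e1]
    have e2 := dg_add_le (g.s2.qs (v.q1.qs (w.p2.qs s.a)))
      (g.s1.qs (v.q1.qs (w.p1.qs s.t)) * g.s2.qs (v.q1.qs (w.p2.qs s.x))) le_rfl
    have e3 := dg_mul_le (g.s1.qs (v.q1.qs (w.p1.qs s.t))) (g.s2.qs (v.q1.qs (w.p2.qs s.x))) le_rfl
    have e4 : dg (g.s2.qs (v.q1.qs (w.p2.qs s.a))) 1 ≤ g.s2.map (v.q1.map (w.p2.map s.iL)) := by
      rw [g.s2.qs_dg, v.q1.qs_dg, w.p2.qs_dg]
      exact g.s2.map_mono (v.q1.map_mono (w.p2.map_mono s.iA_le))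
    have e5 : dg (g.s2.qs (v.q1.qs (w.p2.qs s.x))) 1 ≤ g.s2.map (v.q1.map (w.p2.map s.iL)) := by
      rw [g.s2.qs_dg, v.q1.qs_dg, w.p2.qs_dg]
      exact g.s2.map_mono (v.q1.map_mono (w.p2.map_mono s.iX_le))
    have e6 : dg (g.s1.qs (v.q1.qs (w.p1.qs s.t))) 1 ≤ g.s1.map v.T0 := by
      rw [g.s1.qs_dg, v.T0_eq]
    order
  have hX : g.s2.map (v.q1.map (w.p2.map s.iX)) ≤ g.s2.map (v.q1.map (w.p2.map s.iL)) :=
    g.s2.map_mono (v.q1.map_mono (w.p2.map_mono s.iX_le))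
  have hT : g.iT1 = g.s2.map (v.q1.map (w.p1.map s.iT)) := rfl
  unfold B'
  rw [g.pj0.map_sup, g.iT0_eq, g.iU_eq, g.iX1_eq, hT, v.q1.map_sup, v.q1.map_sup, g.s2.map_sup, g.s2.map_sup]
  order

/-- the difference of heights over the second Z-shape and the first height -/
theorem g2' {u : ℝ} (hs : s.Hyp u) (y : w.D.L) :
    1 - u ≤ h g.itau (g.s2.map (v.q1.map y) ⊔ g.s1.map v.T0) := by
  have a1 := g.swap.g2 hs y
  have a2 : g.swap.itau = g.itau := g.etau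
  rw [a2] at a1
  exact a1

end Rct

namespace Jmp

variable {w : s.Star} {v : s.Zed w} {g : Rct v} {ι : Type} [Fintype ι] {f : ι → QS S} (J : Jmp g f)

/-- THE DIFFERENCE OF HEIGHTS IS REAL over the block without it, the last vertex `R21` and the new copy -/
theorem fine {u c : ℝ} (hs : s.Hyp u) (hc : c ≤ 1) (hf : vd f 1 ≤ s.iP) (R zz : QS S)
    (hR : dg R 1 ≤ s.iP)
    (hiso : I (vd f 1) (s.iT ⊔ s.iY ⊔ dg R 1) (s.iT ⊔ s.iY ⊔ dg R c) = 0) (R21 : QS g.D)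
    (h1 : R21 - g.pj0.qs R ∈ Id g.D c) (h3 : dg R21 1 ≤ g.pj0.map (dg R 1) ⊔ (g.B' ⊔ g.itau)) (y : w.D.L)
    (h4 : dg R21 1 ≤ g.s2.map (v.q1.map y) ⊔ g.s1.map v.T0) :
    1 - u ≤ h (J.r1.map g.itau) (J.r1.map (g.B' ⊔ dg R21 1) ⊔ J.r2.map (dg R 1 ⊔ dg zz 1)) := by
  -- (a)
  have ha : 1 - u ≤ h g.itau (g.B' ⊔ dg R21 1) := by
    have a1 := g.g2' hs (w.p1.map s.iX ⊔ w.p2.map s.iL ⊔ w.p1.map s.iT ⊔ y)
    refine a1.trans (h_anti ?_)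
    have a5 := g.B'_le
    rw [v.q1.map_sup (w.p1.map s.iX ⊔ w.p2.map s.iL ⊔ w.p1.map s.iT), g.s2.map_sup]
    order
  -- (b)
  have hblk : g.B' ≤ g.pj0.map (s.iT ⊔ s.iY ⊔ dg R 1) ⊔ (g.iU ⊔ g.iX1 ⊔ g.itau ⊔ g.iT1) := by
    unfold Rct.B'
    have : g.pj0.map (s.iT ⊔ s.iY) ≤ g.pj0.map (s.iT ⊔ s.iY ⊔ dg R 1) := g.pj0.map_mono le_sup_left
    order
  have hb : I (g.pj0.map (vd f 1)) g.itau (g.B' ⊔ dg R21 1) = 0 := by
    have b1 := g.pj0.I_map (vd f 1) (s.iT ⊔ s.iY ⊔ dg R 1) (s.iT ⊔ s.iY ⊔ dg R c)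
    rw [hiso] at b1
    have m1 : g.pj0.map (s.iT ⊔ s.iY ⊔ dg R 1) ≤ g.iP0 :=
      g.pj0.map_mono (sup_le (sup_le s.iT_le s.iY_le) hR)
    have m2 : g.pj0.map (vd f 1) ≤ g.iP0 := g.pj0.map_mono hf
    have m3 : g.pj0.map (s.iT ⊔ s.iY ⊔ dg R c) ≤ g.pj0.map (s.iT ⊔ s.iY ⊔ dg R 1) :=
      g.pj0.map_mono (sup_le_sup le_rfl (dg_mono R hc))
    have b2 : I (g.pj0.map (vd f 1)) (g.iU ⊔ g.iX1 ⊔ g.itau ⊔ g.iT1) (g.pj0.map (s.iT ⊔ s.iY ⊔ dg R 1)) = 0 :=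
      ind_symm (ind_of (ind_symm (g.g1 hs)) bot_le (by order) le_sup_left (by order))
    have b3 : I (g.pj0.map (vd f 1)) (g.pj0.map (s.iT ⊔ s.iY ⊔ dg R 1) ⊔ (g.iU ⊔ g.iX1 ⊔ g.itau ⊔ g.iT1))
        (g.pj0.map (s.iT ⊔ s.iY ⊔ dg R c)) = 0 :=
      ind_add b1 b2 (sup_eq_left.mpr m3).symm
    have m4 : g.pj0.map (s.iT ⊔ s.iY ⊔ dg R c) ≤ g.B' ⊔ dg R21 1 := by
      have e1 : g.pj0.map (dg R c) ≤ dg R21 1 := by
        rw [← g.pj0.qs_dg, ← dg_eq_of_sub_mem h1 le_rfl hc]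
        exact dg_mono R21 hc
      unfold Rct.B'
      rw [g.pj0.map_sup (s.iT ⊔ s.iY)]
      order
    have m5 : g.pj0.map (dg R 1) ≤ g.pj0.map (s.iT ⊔ s.iY ⊔ dg R 1) := g.pj0.map_mono le_sup_right
    exact ind_of b3 m4 (by order) le_sup_left (by order)
  have hb' : h g.itau (g.B' ⊔ dg R21 1 ⊔ g.pj0.map (vd f 1)) = h g.itau (g.B' ⊔ dg R21 1) := by
    rw [I_zero_iff_h', sup_comm] at hb
    exact hb
  -- (c)
  have hc2 : I (J.r1.map g.itau) (J.r2.map (dg R 1 ⊔ dg zz 1))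
      (J.r1.map (g.B' ⊔ dg R21 1 ⊔ g.pj0.map (vd f 1))) = 0 := by
    have c1 := J.ci (g.B' ⊔ dg R21 1 ⊔ g.itau) (dg R 1 ⊔ dg zz 1)
    have c2 : J.r1.map (g.B' ⊔ dg R21 1 ⊔ g.pj0.map (vd f 1)) =
        J.r1.map (g.B' ⊔ dg R21 1) ⊔ J.r1.map (g.pj0.map (vd f 1)) := J.r1.map_sup _ _
    rw [J.r1.map_sup] at c1
    rw [c2]
    exact ind_symm (ind_of (ind_symm c1) le_sup_right (by order) le_sup_left (by order))
  rw [I_zero_iff_h] at hc2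
  calc 1 - u ≤ h g.itau (g.B' ⊔ dg R21 1 ⊔ g.pj0.map (vd f 1)) := by rw [hb']; exact ha
    _ = h (J.r1.map g.itau) (J.r1.map (g.B' ⊔ dg R21 1 ⊔ g.pj0.map (vd f 1))) := (J.r1.h_map _ _).symm
    _ = h (J.r1.map g.itau) (J.r2.map (dg R 1 ⊔ dg zz 1) ⊔
        J.r1.map (g.B' ⊔ dg R21 1 ⊔ g.pj0.map (vd f 1))) := hc2.symm
    _ ≤ h (J.r1.map g.itau) (J.r1.map (g.B' ⊔ dg R21 1) ⊔ J.r2.map (dg R 1 ⊔ dg zz 1)) := by
        apply h_anti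
        rw [J.r1.map_sup (g.B' ⊔ dg R21 1)]
        order

end Jmp

end TS

end

end Pool.Agent.Helper81.TP
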