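import Pool.Agent.Helper31.EC.Rl

/-! Ring identities of the thin parallelogram (notes 82e, section 1): displacement of the top coordinate around the
parallelogram over the Heisenberg base, and conservation of the frame. Everything modulo an ideal. -/

set_option autoImplicit false

namespace Pool.Agent.Helper81.TP

variable {A : Type*} [CommRing A] (J : Ideal A)

theorem mem_iff {x : A} : x ∈ J ↔ Ideal.Quotient.mk J x = 0 := Ideal.Quotient.eq_zero_iff_mem.symm

/-- the R-coordinate around the parallelogram: exact displacement -/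
theorem disp_R (R12 R1 R R2 R21 τ t1 u x1 t0 y12 : A)
    (h1 : R1 - (R12 - τ * (y12 - t0 * u)) ∈ J)
    (h2 : R - (R1 - t1 * ((y12 - τ * u) - (t0 - τ) * x1)) ∈ J)
    (h3 : R2 - (R + τ * ((y12 - τ * u - t1 * x1) - (t0 - τ - t1) * u)) ∈ J)
    (h4 : R21 - (R2 + t1 * ((y12 - t1 * x1) - (t0 - t1) * x1)) ∈ J) :
    R21 - (R12 + 2 * (u - x1) * t1 * τ) ∈ J := by
  rw [mem_iff] at *
  simp only [map_sub, map_add, map_mul, map_ofNat] at *
  linear_combination h1 + h2 + h3 + h4

/-- DISPLACEMENT of the top coordinate around the parallelogram `M12, M1, M, M2, M21` -/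
theorem disp_z (z12 z1 z z2 z21 τ t1 u x1 v0 vz v1 vx be1 al1 be al be2 al2 c2 : A)
    (h1 : z1 - (z12 - τ * v0) ∈ J) (h2 : z - (z1 - t1 * vz) ∈ J) (h3 : z2 - (z + τ * v1) ∈ J)
    (h4 : z21 - (z2 + t1 * vx) ∈ J) (e1 : v0 - (be1 + al1 * u) ∈ J) (e2 : vz - (be1 + al1 * x1) ∈ J)
    (e3 : vz - (be + al * x1) ∈ J) (e4 : v1 - (be + al * u) ∈ J) (e5 : v1 - (be2 + al2 * u) ∈ J)
    (e6 : vx - (be2 + al2 * x1) ∈ J) (e7 : al2 - (al - c2 * τ) ∈ J) :
    z21 - (z12 + (u - x1) * τ * (t1 * c2 - (al1 - al))) ∈ J := by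
  rw [mem_iff] at *
  simp only [map_sub, map_add, map_mul] at *
  linear_combination h1 + h2 + h3 + h4 + (Ideal.Quotient.mk J τ) * (e4 - e3 + e2 - e1) +
    (Ideal.Quotient.mk J t1) * (e6 - e5 + e4 - e3) -
    (Ideal.Quotient.mk J t1) * (Ideal.Quotient.mk J u - Ideal.Quotient.mk J x1) * e7

/-- the displacement with the jump at the start: `z12 = zh + c (R12 - Rh)` -/
theorem disp_jump (z12 z21 R12 R21 zh Rh c τ t1 u x1 c2 da : A)
    (hz : z21 - (z12 + (u - x1) * τ * (t1 * c2 - da)) ∈ J)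
    (hR : R21 - (R12 + 2 * (u - x1) * t1 * τ) ∈ J) (hj : z12 - (zh + c * (R12 - Rh)) ∈ J) :
    z21 - (zh + c * (R21 - Rh) + (u - x1) * τ * (t1 * c2 - 2 * t1 * c - da)) ∈ J := by
  rw [mem_iff] at *
  simp only [map_sub, map_add, map_mul, map_ofNat] at *
  linear_combination hz + hj - (Ideal.Quotient.mk J c) * hR

/-- membership in an ideal up to a unit -/
theorem mem_of_unit {a x : A} (ha : IsUnit a) (h : a * x ∈ J) : x ∈ J := by
  obtain ⟨b, rfl⟩ := ha
  have := J.mul_mem_left (↑b⁻¹ : A) h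
  rwa [← mul_assoc, Units.inv_mul, one_mul] at this

/-- CONSERVATION: equation (2) and its exchange at two points of a line give the same frame at the two points -/
theorem conserved (t t' y y' R R' z z' x τ al al' be be' c c' : A) (hτ : IsUnit (3 * τ))
    (ht : t' - (t + τ) ∈ J) (hy : y' - (y + τ * x) ∈ J) (hR : R' - (R + τ * (y - t * x)) ∈ J)
    (hz : z' - (z + τ * (be + al * x)) ∈ J) (hv : (be' + al' * x) - (be + al * x) ∈ J)
    (h2 : al' - al - τ * (c - 2 * c') ∈ J) (h2' : al - al' + τ * (c' - 2 * c) ∈ J) :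
    c' - c ∈ J ∧ (al' + c' * t') - (al + c * t) ∈ J ∧ (be' - c' * y') - (be - c * y) ∈ J ∧
      (z' - (be' - c' * y') * t' - (al' + c' * t') * y' - c' * R') -
        (z - (be - c * y) * t - (al + c * t) * y - c * R) ∈ J := by
  have hc : c' - c ∈ J := by
    apply mem_of_unit J hτ
    have := J.add_mem h2 h2'
    have e : al' - al - τ * (c - 2 * c') + (al - al' + τ * (c' - 2 * c)) = 3 * τ * (c' - c) := by ring
    rwa [e] at this
  rw [mem_iff] at ht hy hR hz hv h2 h2' hc
  simp only [map_sub, map_add, map_mul, map_ofNat] at ht hy hR hz hv h2 h2' hc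
  have ec : Ideal.Quotient.mk J c' = Ideal.Quotient.mk J c := by linear_combination hc
  have et : Ideal.Quotient.mk J t' = Ideal.Quotient.mk J t + Ideal.Quotient.mk J τ := by
    linear_combination ht
  have ey : Ideal.Quotient.mk J y' = Ideal.Quotient.mk J y + Ideal.Quotient.mk J τ * Ideal.Quotient.mk J x := by
    linear_combination hy
  have eR : Ideal.Quotient.mk J R' = Ideal.Quotient.mk J R + Ideal.Quotient.mk J τ *
      (Ideal.Quotient.mk J y - Ideal.Quotient.mk J t * Ideal.Quotient.mk J x) := by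
    linear_combination hR
  have ez : Ideal.Quotient.mk J z' = Ideal.Quotient.mk J z + Ideal.Quotient.mk J τ *
      (Ideal.Quotient.mk J be + Ideal.Quotient.mk J al * Ideal.Quotient.mk J x) := by
    linear_combination hz
  have ea : Ideal.Quotient.mk J al' = Ideal.Quotient.mk J al - Ideal.Quotient.mk J τ * Ideal.Quotient.mk J c := by
    rw [ec] at h2
    linear_combination h2
  have eb : Ideal.Quotient.mk J be' = Ideal.Quotient.mk J be +
      Ideal.Quotient.mk J x * Ideal.Quotient.mk J τ * Ideal.Quotient.mk J c := by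
    rw [ea] at hv
    linear_combination hv
  refine ⟨by rw [mem_iff, map_sub, ec, sub_self], ?_, ?_, ?_⟩
  · rw [mem_iff]
    simp only [map_sub, map_add, map_mul]
    rw [ec, et, ea]
    ring
  · rw [mem_iff]
    simp only [map_sub, map_mul]
    rw [ec, ey, eb]
    ring
  · rw [mem_iff]
    simp only [map_sub, map_add, map_mul]
    rw [ec, et, ey, eR, ez, ea, eb]
    ring

open Pool.Agent.Helper31.EC Pool.Agent.Helper31.EC.Sp Pool.Agent.Helper69.RK Filter

/-- natural numbers are units of the ring of functions to full precision -/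
theorem isUnit_nat {S : Sp} (n : ℕ) (hn : n ≠ 0) : IsUnit (n : QS S) := by
  have h1 : (n : QS S) = QS.mk ((n : ℕ) : TR S) := by rw [map_natCast]
  rw [h1, QS.isUnit_mk]
  refine ⟨fun _ => 1, S.Sub_const zero_le_one, Typ_true.mono (Eventually.of_forall fun k ω _ _ => ?_)⟩
  have h2 : TR.ev ((n : ℕ) : TR S) k ω = n := by
    rw [← TR.evh_apply, map_natCast]
  rw [h2, one_mul, abs_of_nonneg (Nat.cast_nonneg n)]
  exact_mod_cast Nat.one_le_iff_ne_zero.mpr hn

end Pool.Agent.Helper81.TP
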