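import Pool.Agent.Helper81.TP.Fine
import Pool.Agent.Helper81.TP.Abs
import Pool.Agent.Helper81.TP.Rng
import Pool.Agent.Helper82.TP.Base

/-! The thin parallelogram over the real Heisenberg group (notes 82e): the frame of the labels is conserved along the
macroscopic parallel line. -/

set_option autoImplicit false

namespace Pool.Agent.Helper81.TP

open Pool.Agent.Helper31.EC Pool.Agent.Helper38.NS QS
open Pool.Agent.Helper82.TP (dg_add_le' dg_sub_le' dg_mul_le' dg_mul_small dg_le_of_sub)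

noncomputable section

namespace TS

variable {S : Sp} {κ : Type} [Fintype κ] (s : TS S (Fin 2) (Fin 3) κ)

/-- isotropic digits of the point of the base -/
def iso (r : ℝ) : S.L := dg s.t r ⊔ dg s.y r ⊔ dg (s.v 0) r
/-- the point of the base -/
def iM : S.L := s.iT ⊔ s.iY ⊔ dg (s.v 0) 1
/-- labels of the jump -/
def jf (i : Fin 7 → κ) : Fin 2 ⊕ Fin 7 → QS S := Sum.elim ![s.t, s.y] (fun a => s.k (i a))
/-- frame of the velocity: `v = be + al x` -/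
def al (j : Fin 4 → κ) : QS S := s.k (j 2) - s.k (j 3) * s.t
def be (j : Fin 4 → κ) : QS S := s.k (j 1) + s.k (j 3) * s.y

/-- the hypotheses: `v 0 = R`, `v 1 = z`, `l 0` and `l 2` their intercepts, `l 1` the slope of `z`; `j` the frame
`z0, k0, k1, c` of the labels at the scale `u`, `i` the frames `z0, k0, k1, c` of `z` and `r0, r1, r2` of `R` at the
finer scale -/
structure DH (j : Fin 4 → κ) (i : Fin 7 → κ) (u c b rc ρ : ℝ) : Prop where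
  hR : s.v 0 = s.l 0 + s.t * s.a
  hz : s.v 1 = s.l 2 + s.t * s.l 1
  hV : s.l 1 - (s.be j + s.al j * s.x) ∈ Id S b
  hJ : s.v 1 - (s.k (i 0) + s.k (i 1) * s.t + s.k (i 2) * s.y + s.k (i 3) * s.v 0) ∈ Id S b
  hF : s.v 0 - (s.k (i 4) + s.k (i 5) * s.t + s.k (i 6) * s.y) ∈ Id S c
  hJ2 : s.v 1 - (s.k (j 0) + s.k (j 1) * s.t + s.k (j 2) * s.y + s.k (j 3) * s.v 0) ∈ Id S (b - u)
  hC : s.k (j 3) - s.k (i 3) ∈ Id S (b - u)
  hW1 : dg (s.k (i 3)) rc ≤ s.iso c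
  hW2 : dg (s.al j) (b - u) ≤ s.iso u
  hW3 : dg (s.k (j 3)) (b - u) ≤ s.iso c
  hS : dg (s.l 1) b ≤ s.iM ⊔ s.iX
  hU : UnS (s.v 1) s.iM 0 ρ
  hI : I (vd (s.jf i) 1) s.iM (s.iT ⊔ s.iY ⊔ dg (s.v 0) c) = 0
  hρ : 0 < ρ
  hc0 : 0 ≤ c
  hcu : c ≤ u
  hub : u ≤ b
  hb : b ≤ 1
  hbu : b - u ≤ u
  hbr : b - u ≤ rc
  hbc : b - c ≤ rc

variable {s} {j : Fin 4 → κ} {i : Fin 7 → κ} {u c b rc ρ : ℝ}

theorem iso_le {r : ℝ} (hr : r ≤ 1) : s.iso r ≤ s.iM := by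
  have h1 := dg_mono s.t hr
  have h2 := dg_mono s.y hr
  have h3 := dg_mono (s.v 0) hr
  unfold iso iM iT iY
  order

theorem iM_le : s.iM ≤ s.iP := by
  have h1 := s.iT_le
  have h2 := s.iY_le
  have h3 : dg (s.v 0) 1 ≤ s.iP := dg_le_vd s.fp 1 (Sum.inr (Sum.inl 0))
  unfold iM
  order

theorem jf_le : vd (s.jf i) 1 ≤ s.iP := by
  rw [vd_le]
  rintro (a | a)
  · fin_cases a
    · exact s.iT_le
    · exact s.iY_le
  · exact dg_le_vd s.fp 1 (Sum.inr (Sum.inr (i a)))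

/-- motion along a line -/
theorem DH.line (d : s.DH j i u c b rc ρ) {T : Sp} {p p' : Pj T S} (hl : ∀ a, p.qs (s.fl a) = p'.qs (s.fl a))
    {δ : QS T} (ht : p'.qs s.t = p.qs s.t + δ) :
    p'.qs s.y = p.qs s.y + δ * p.qs s.x ∧
    p'.qs (s.v 0) = p.qs (s.v 0) + δ * (p.qs s.y - p.qs s.t * p.qs s.x) ∧
    p'.qs (s.v 1) = p.qs (s.v 1) + δ * p.qs (s.l 1) := by
  have l0 : p.qs s.a = p'.qs s.a := hl (Sum.inl 0)
  have l1 : p.qs s.x = p'.qs s.x := hl (Sum.inl 1)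
  have l2 : p.qs (s.l 0) = p'.qs (s.l 0) := hl (Sum.inr 0)
  have l3 : p.qs (s.l 1) = p'.qs (s.l 1) := hl (Sum.inr 1)
  have l4 : p.qs (s.l 2) = p'.qs (s.l 2) := hl (Sum.inr 2)
  refine ⟨?_, ?_, ?_⟩
  · unfold y
    rw [map_add, map_mul, map_add, map_mul, ← l0, ← l1, ht]
    ring
  · rw [d.hR]
    unfold y
    rw [map_add, map_mul, map_add, map_mul, map_add, map_mul, ← l0, ← l2, ht]
    ring
  · rw [d.hz, map_add, map_mul, map_add, map_mul, ← l3, ← l4, ht]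
    ring

namespace Rct

variable {w : s.Star} {v : s.Zed w} (g : Rct v)

/-- the vertices on the lines: `M12`, `M1` on the first thin line, `M1`, `M` on the common macroscopic line, `M`, `M2` on
the second thin line, `M2` on the outer macroscopic line -/
def pr0 : Pj g.D S := (g.s1.comp v.q1).comp w.p1
def pr1 : Pj g.D S := (g.s1.comp v.q2).comp w.p1
def pz1 : Pj g.D S := (g.s1.comp v.q2).comp w.p2
def pzM : Pj g.D S := (g.s2.comp v.q2).comp w.p2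
def prM : Pj g.D S := (g.s2.comp v.q2).comp w.p1
def pr2 : Pj g.D S := (g.s2.comp v.q1).comp w.p1
def px2 : Pj g.D S := (g.s2.comp v.q1).comp w.p2

theorem pr0_qs (f : QS S) : g.pr0.qs f = g.s1.qs (v.q1.qs (w.p1.qs f)) := by
  unfold pr0
  rw [Pj.comp_qs, Pj.comp_qs]

theorem pr1_qs (f : QS S) : g.pr1.qs f = g.s1.qs (v.q2.qs (w.p1.qs f)) := by
  unfold pr1
  rw [Pj.comp_qs, Pj.comp_qs]

theorem pz1_qs (f : QS S) : g.pz1.qs f = g.s1.qs (v.q2.qs (w.p2.qs f)) := by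
  unfold pz1
  rw [Pj.comp_qs, Pj.comp_qs]

theorem pzM_qs (f : QS S) : g.pzM.qs f = g.s2.qs (v.q2.qs (w.p2.qs f)) := by
  unfold pzM
  rw [Pj.comp_qs, Pj.comp_qs]

theorem prM_qs (f : QS S) : g.prM.qs f = g.s2.qs (v.q2.qs (w.p1.qs f)) := by
  unfold prM
  rw [Pj.comp_qs, Pj.comp_qs]

theorem pr2_qs (f : QS S) : g.pr2.qs f = g.s2.qs (v.q1.qs (w.p1.qs f)) := by
  unfold pr2
  rw [Pj.comp_qs, Pj.comp_qs]

theorem px2_qs (f : QS S) : g.px2.qs f = g.s2.qs (v.q1.qs (w.p2.qs f)) := by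
  unfold px2
  rw [Pj.comp_qs, Pj.comp_qs]

/-- the same point -/
theorem c0 (a) : g.pj0.qs (s.fp a) = g.pr0.qs (s.fp a) := by rw [g.pj0_qs, g.pr0_qs, w.com]
theorem c1 (a) : g.pz1.qs (s.fp a) = g.pr1.qs (s.fp a) := by rw [g.pz1_qs, g.pr1_qs, w.com]
theorem cM (a) : g.pzM.qs (s.fp a) = g.prM.qs (s.fp a) := by rw [g.pzM_qs, g.prM_qs, w.com]
theorem c2 (a) : g.px2.qs (s.fp a) = g.pr2.qs (s.fp a) := by rw [g.px2_qs, g.pr2_qs, w.com]

/-- the same line -/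
theorem l01 (a) : g.pr0.qs (s.fl a) = g.pr1.qs (s.fl a) := by rw [g.pr0_qs, g.pr1_qs, v.cl]
theorem l1M (a) : g.pz1.qs (s.fl a) = g.pzM.qs (s.fl a) := by rw [g.pz1_qs, g.pzM_qs, g.cl]
theorem lM2 (a) : g.prM.qs (s.fl a) = g.pr2.qs (s.fl a) := by rw [g.prM_qs, g.pr2_qs, v.cl]

/-- the same labels -/
theorem k01 (a) : g.pr0.qs (s.k a) = g.pr1.qs (s.k a) := by rw [g.pr0_qs, g.pr1_qs, v.ck]
theorem kM2 (a) : g.prM.qs (s.k a) = g.pr2.qs (s.k a) := by rw [g.prM_qs, g.pr2_qs, v.ck]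

/-- directions and displacements -/
def uu : QS g.D := g.pr1.qs s.x
def xx : QS g.D := g.pj0.qs s.x
def ta : QS g.D := g.s1.qs v.tau
def tt : QS g.D := g.pr0.qs s.t - g.pr2.qs s.t

theorem uM : g.prM.qs s.x = g.uu := by
  unfold uu
  rw [g.prM_qs, g.pr1_qs]
  exact g.cu.symm

theorem u0 : g.pr0.qs s.x = g.uu := g.l01 (Sum.inl 1)

theorem u2 : g.pr2.qs s.x = g.uu := by rw [← g.uM]; exact (g.lM2 (Sum.inl 1)).symm

theorem x1 : g.pz1.qs s.x = g.xx := by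
  unfold xx
  rw [g.pz1_qs, g.pj0_qs, v.cx]

theorem xM : g.pzM.qs s.x = g.xx := by rw [← g.x1]; exact (g.l1M (Sum.inl 1)).symm

theorem x2 : g.px2.qs s.x = g.xx := by
  unfold xx
  rw [g.px2_qs, g.pj0_qs]
  exact g.x_eq.symm

theorem t1_eq : g.pr1.qs s.t = g.pr0.qs s.t + -g.ta := by
  unfold ta Zed.tau
  rw [g.pr1_qs, g.pr0_qs, map_sub]
  ring

theorem t2_eq : g.pr2.qs s.t = g.prM.qs s.t + g.ta := by
  unfold ta
  rw [g.ct]
  unfold Zed.tau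
  rw [g.pr2_qs, g.prM_qs, map_sub]
  ring

theorem tM_eq : g.prM.qs s.t = g.pr1.qs s.t + -g.tt := by
  have h1 := g.t1_eq
  have h2 := g.t2_eq
  unfold tt
  linear_combination -h1 - h2

/-- all coordinates of the vertices -/
theorem vert (d : s.DH j i u c b rc ρ) :
    (g.pr1.qs s.y = g.pj0.qs s.y - g.ta * g.uu ∧
    g.pr1.qs (s.v 0) = g.pj0.qs (s.v 0) - g.ta * (g.pj0.qs s.y - g.pj0.qs s.t * g.uu) ∧
    g.pr1.qs (s.v 1) = g.pj0.qs (s.v 1) - g.ta * g.pr1.qs (s.l 1)) ∧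
    (g.prM.qs s.y = g.pr1.qs s.y - g.tt * g.xx ∧
    g.prM.qs (s.v 0) = g.pr1.qs (s.v 0) - g.tt * (g.pr1.qs s.y - g.pr1.qs s.t * g.xx) ∧
    g.prM.qs (s.v 1) = g.pr1.qs (s.v 1) - g.tt * g.pz1.qs (s.l 1)) ∧
    (g.pr2.qs s.y = g.prM.qs s.y + g.ta * g.uu ∧
    g.pr2.qs (s.v 0) = g.prM.qs (s.v 0) + g.ta * (g.prM.qs s.y - g.prM.qs s.t * g.uu) ∧
    g.pr2.qs (s.v 1) = g.prM.qs (s.v 1) + g.ta * g.prM.qs (s.l 1)) := by
  have t0 : g.pj0.qs s.t = g.pr0.qs s.t := g.c0 (Sum.inl 0)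
  have y0 : g.pj0.qs s.y = g.pr0.qs s.y := g.c0 (Sum.inl 1)
  have R0 : g.pj0.qs (s.v 0) = g.pr0.qs (s.v 0) := g.c0 (Sum.inr (Sum.inl 0))
  have z0 : g.pj0.qs (s.v 1) = g.pr0.qs (s.v 1) := g.c0 (Sum.inr (Sum.inl 1))
  have t1 : g.pz1.qs s.t = g.pr1.qs s.t := g.c1 (Sum.inl 0)
  have y1 : g.pz1.qs s.y = g.pr1.qs s.y := g.c1 (Sum.inl 1)
  have R1 : g.pz1.qs (s.v 0) = g.pr1.qs (s.v 0) := g.c1 (Sum.inr (Sum.inl 0))
  have z1 : g.pz1.qs (s.v 1) = g.pr1.qs (s.v 1) := g.c1 (Sum.inr (Sum.inl 1))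
  have tM : g.pzM.qs s.t = g.prM.qs s.t := g.cM (Sum.inl 0)
  have yM : g.pzM.qs s.y = g.prM.qs s.y := g.cM (Sum.inl 1)
  have RM : g.pzM.qs (s.v 0) = g.prM.qs (s.v 0) := g.cM (Sum.inr (Sum.inl 0))
  have zM : g.pzM.qs (s.v 1) = g.prM.qs (s.v 1) := g.cM (Sum.inr (Sum.inl 1))
  have e1 := d.line g.l01 g.t1_eq
  have e2 := d.line g.l1M (δ := -g.tt) (by rw [tM, t1]; exact g.tM_eq)
  have e3 := d.line g.lM2 g.t2_eq
  have l1 : g.pr0.qs (s.l 1) = g.pr1.qs (s.l 1) := g.l01 (Sum.inr 1)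
  rw [g.u0, l1, ← t0, ← y0, ← R0, ← z0] at e1
  rw [g.x1, t1, y1, R1, z1, yM, RM, zM] at e2
  rw [g.uM] at e3
  refine ⟨⟨?_, ?_, ?_⟩, ⟨?_, ?_, ?_⟩, e3⟩
  · linear_combination e1.1
  · linear_combination e1.2.1
  · linear_combination e1.2.2
  · linear_combination e2.1
  · linear_combination e2.2.1
  · linear_combination e2.2.2

/-- the `R`-coordinate of the outer macroscopic line at the height of the first vertex -/
def R21 : QS g.D := g.pr2.qs (s.v 0) + g.tt * (g.pr2.qs s.y - g.pr2.qs s.t * g.xx)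

theorem R21_eq (d : s.DH j i u c b rc ρ) :
    g.R21 = g.pj0.qs (s.v 0) + 2 * (g.uu - g.xx) * g.tt * g.ta := by
  obtain ⟨⟨y1, R1, -⟩, ⟨yM, RM, -⟩, ⟨y2, R2, -⟩⟩ := g.vert d
  have t0 : g.pj0.qs s.t = g.pr0.qs s.t := g.c0 (Sum.inl 0)
  have t1 := g.t1_eq
  have tM := g.tM_eq
  have t2 := g.t2_eq
  unfold R21
  rw [R2, y2, t2, RM, yM, tM, R1, y1, t1, ← t0]
  ring

/-- what is known to the block without the difference of heights -/
theorem tB : dg (g.pj0.qs s.t) 1 ≤ g.B' := by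
  have h1 : dg (g.pj0.qs s.t) 1 ≤ g.pj0.map (s.iT ⊔ s.iY) := by
    rw [g.pj0.qs_dg]
    exact g.pj0.map_mono le_sup_left
  unfold B'
  order

theorem yB : dg (g.pj0.qs s.y) 1 ≤ g.B' := by
  have h1 : dg (g.pj0.qs s.y) 1 ≤ g.pj0.map (s.iT ⊔ s.iY) := by
    rw [g.pj0.qs_dg]
    exact g.pj0.map_mono le_sup_right
  unfold B'
  order

theorem uB : dg g.uu 1 ≤ g.B' := by
  have h1 : dg g.uu 1 = g.iU := by
    unfold uu iU Zed.U
    rw [g.pr1_qs, g.s1.qs_dg, v.q2.qs_dg, w.p1.qs_dg]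
    rfl
  unfold B'
  rw [h1]
  order

theorem xB : dg g.xx 1 ≤ g.B' := by
  have h1 : dg g.xx 1 = g.iX1 := by
    unfold xx iX1
    rw [g.pj0_qs, g.s1.qs_dg, v.q1.qs_dg, w.p2.qs_dg]
    rfl
  unfold B'
  rw [h1]
  order

theorem t2B : dg (g.pr2.qs s.t) 1 ≤ g.B' := by
  have h1 : dg (g.pr2.qs s.t) 1 = g.iT1 := by
    rw [g.iT1_eq, g.pr2_qs]
  unfold B'
  rw [h1]
  order

theorem t0_eq : g.pr0.qs s.t = g.pj0.qs s.t := (g.c0 (Sum.inl 0)).symm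

theorem ttB : dg g.tt 1 ≤ g.B' := by
  unfold tt
  apply Pool.Agent.Helper82.TP.dg_sub_le' _ _ le_rfl
  · rw [g.t0_eq]
    exact g.tB
  · exact g.t2B

theorem tau_id {u : ℝ} (hs : s.Hyp u) : g.ta ∈ Id g.D u := (g.s1.qs_mem_Id hs.s1).mpr (v.tau_mem hs)

theorem itau_ta : g.itau = dg g.ta 1 := g.itau_eq

/-- the point of the vertex `M2` is known to the block and `R21` -/
theorem M2B (d : s.DH j i u c b rc ρ) : g.pr2.map s.iM ≤ g.B' ⊔ dg g.R21 1 := by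
  obtain ⟨⟨y1, R1, -⟩, ⟨yM, RM, -⟩, ⟨y2, R2, -⟩⟩ := g.vert d
  have a1 := g.tB
  have a2 := g.yB
  have a3 := g.uB
  have a4 := g.xB
  have a5 := g.t2B
  have a6 := g.ttB
  have e1 : g.pr2.qs s.y = g.pj0.qs s.y - g.tt * g.xx := by
    rw [y2, yM, y1]
    ring
  have b1 : dg (g.pr2.qs s.y) 1 ≤ g.B' := by
    rw [e1]
    exact dg_sub_le' _ _ le_rfl a2 (dg_mul_le' _ _ le_rfl a6 a4)
  have b2 : dg (g.pr2.qs (s.v 0)) 1 ≤ g.B' ⊔ dg g.R21 1 := by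
    have e2 : g.pr2.qs (s.v 0) = g.R21 - g.tt * (g.pr2.qs s.y - g.pr2.qs s.t * g.xx) := by
      unfold R21
      ring
    rw [e2]
    apply dg_sub_le' _ _ le_rfl le_sup_right
    apply le_trans _ le_sup_left
    exact dg_mul_le' _ _ le_rfl a6 (dg_sub_le' _ _ le_rfl b1 (dg_mul_le' _ _ le_rfl a5 a4))
  unfold iM iT iY
  rw [g.pr2.map_sup, g.pr2.map_sup, ← g.pr2.qs_dg, ← g.pr2.qs_dg, ← g.pr2.qs_dg]
  order

/-- `R21` over the first vertex -/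
theorem R21_le (d : s.DH j i u c b rc ρ) :
    dg g.R21 1 ≤ g.pj0.map (dg (s.v 0) 1) ⊔ (g.B' ⊔ g.itau) := by
  rw [g.R21_eq d, g.itau_ta]
  have a3 := g.uB
  have a4 := g.xB
  have a6 := g.ttB
  apply dg_add_le' _ _ le_rfl
  · rw [g.pj0.qs_dg]
    exact le_sup_left
  · have e1 : 2 * (g.uu - g.xx) * g.tt * g.ta = (g.uu - g.xx) * g.tt * g.ta + (g.uu - g.xx) * g.tt * g.ta := by
      ring
    rw [e1]
    have e2 : dg ((g.uu - g.xx) * g.tt * g.ta) 1 ≤ g.B' ⊔ dg g.ta 1 :=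
      dg_mul_le' _ _ le_rfl ((dg_mul_le' _ _ le_rfl (dg_sub_le' _ _ le_rfl a3 a4) a6).trans le_sup_left)
        le_sup_right
    exact (dg_add_le' _ _ le_rfl e2 e2).trans le_sup_right

/-- `R21` over the second Z-shape and the height of the first vertex -/
theorem R21_le' : dg g.R21 1 ≤ g.s2.map (v.q1.map (w.p1.map s.iM ⊔ w.p2.map s.iX)) ⊔ g.s1.map v.T0 := by
  have m1 : g.pr2.map s.iM ≤ g.s2.map (v.q1.map (w.p1.map s.iM ⊔ w.p2.map s.iX)) := by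
    unfold pr2
    rw [Pj.comp_map, Pj.comp_map]
    exact g.s2.map_mono (v.q1.map_mono le_sup_left)
  have m2 : dg g.xx 1 ≤ g.s2.map (v.q1.map (w.p1.map s.iM ⊔ w.p2.map s.iX)) := by
    rw [← g.x2]
    unfold px2
    rw [Pj.qs_dg, Pj.comp_map, Pj.comp_map]
    exact g.s2.map_mono (v.q1.map_mono le_sup_right)
  have m3 : dg (g.pr2.qs s.t) 1 ≤ g.pr2.map s.iM := by
    rw [g.pr2.qs_dg]
    exact g.pr2.map_mono (le_sup_left.trans le_sup_left)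
  have m4 : dg (g.pr2.qs s.y) 1 ≤ g.pr2.map s.iM := by
    rw [g.pr2.qs_dg]
    exact g.pr2.map_mono (le_sup_right.trans le_sup_left)
  have m5 : dg (g.pr2.qs (s.v 0)) 1 ≤ g.pr2.map s.iM := by
    rw [g.pr2.qs_dg]
    exact g.pr2.map_mono le_sup_right
  have m6 : dg (g.pr0.qs s.t) 1 ≤ g.s1.map v.T0 := by
    rw [g.pr0_qs, v.T0_eq, g.s1.qs_dg]
  obtain ⟨Z, hZ⟩ : ∃ Z, Z = g.s2.map (v.q1.map (w.p1.map s.iM ⊔ w.p2.map s.iX)) := ⟨_, rfl⟩
  rw [← hZ] at m1 m2 ⊢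
  have n3 := m3.trans (m1.trans (le_sup_left (b := g.s1.map v.T0)))
  have n4 := m4.trans (m1.trans (le_sup_left (b := g.s1.map v.T0)))
  have n5 := m5.trans (m1.trans (le_sup_left (b := g.s1.map v.T0)))
  have n2 := m2.trans (le_sup_left (b := g.s1.map v.T0))
  have n6 := m6.trans (le_sup_right (a := Z))
  unfold R21 tt
  exact dg_add_le' _ _ le_rfl n5 (dg_mul_le' _ _ le_rfl (dg_sub_le' _ _ le_rfl n6 n3)
    (dg_sub_le' _ _ le_rfl n4 (dg_mul_le' _ _ le_rfl n3 n2)))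

/-- heights of the two vertices on the macroscopic line: their difference is a unit -/
theorem tt_unit (hs : s.Hyp u) : IsUnit g.tt := by
  have h1 := g.f2 hs v.T0
  have e1 : dg (g.pr2.qs s.t) 1 = g.s2.map v.T0 := by
    rw [g.pr2_qs, v.T0_eq, g.s2.qs_dg]
  have e2 : dg (g.pr0.qs s.t) 1 = g.s1.map v.T0 := by
    rw [g.pr0_qs, v.T0_eq, g.s1.qs_dg]
  have h2 : IsUnit (g.pr2.qs s.t - g.pr0.qs s.t) := by
    apply isUnit_sub
    rw [e1, e2]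
    apply le_antisymm _ h1
    rw [← e1]
    exact h_dg1 _ _
  have h3 : g.tt = -(g.pr2.qs s.t - g.pr0.qs s.t) := by unfold tt; ring
  rw [h3]
  exact h2.neg

/-- labels at the vertices -/
theorem k0 (a) : g.pj0.qs (s.k a) = g.pr1.qs (s.k a) := by
  rw [← g.k01]
  exact g.c0 (Sum.inr (Sum.inr a))

theorem al1 (j : Fin 4 → κ) : g.pr1.qs (s.al j) = g.pj0.qs (s.al j) + g.pj0.qs (s.k (j 3)) * g.ta := by
  unfold al
  rw [map_sub, map_mul, map_sub, map_mul, g.k0, g.k0, g.t1_eq, g.t0_eq]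
  ring

theorem alM (j : Fin 4 → κ) : g.pr2.qs (s.al j) = g.prM.qs (s.al j) - g.prM.qs (s.k (j 3)) * g.ta := by
  unfold al
  rw [map_sub, map_mul, map_sub, map_mul, g.kM2, g.kM2, g.t2_eq]
  ring

/-- displacement of `z` around the parallelogram -/
theorem disp (d : s.DH j i u c b rc ρ) :
    g.pr2.qs (s.v 1) + g.tt * g.px2.qs (s.l 1) - (g.pj0.qs (s.v 1) + (g.uu - g.xx) * g.ta *
      (g.tt * g.prM.qs (s.k (j 3)) - (g.pr1.qs (s.al j) - g.prM.qs (s.al j)))) ∈ Id g.D b := by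
  obtain ⟨⟨-, -, z1⟩, ⟨-, -, zM⟩, ⟨-, -, z2⟩⟩ := g.vert d
  have V : ∀ p : Pj g.D S, p.qs (s.l 1) - (p.qs (s.be j) + p.qs (s.al j) * p.qs s.x) ∈ Id g.D b := by
    intro p
    have := (p.qs_mem_Id d.hb).mpr d.hV
    rwa [map_sub, map_add, map_mul] at this
  have cbe : ∀ (p p' : Pj g.D S), (∀ a, p.qs (s.fp a) = p'.qs (s.fp a)) → p.qs (s.be j) = p'.qs (s.be j) := by
    intro p p' hp
    have y1 : p.qs s.y = p'.qs s.y := hp (Sum.inl 1)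
    have k1 : p.qs (s.k (j 1)) = p'.qs (s.k (j 1)) := hp (Sum.inr (Sum.inr (j 1)))
    have k3 : p.qs (s.k (j 3)) = p'.qs (s.k (j 3)) := hp (Sum.inr (Sum.inr (j 3)))
    unfold be
    rw [map_add, map_mul, map_add, map_mul, y1, k1, k3]
  have cal : ∀ (p p' : Pj g.D S), (∀ a, p.qs (s.fp a) = p'.qs (s.fp a)) → p.qs (s.al j) = p'.qs (s.al j) := by
    intro p p' hp
    have y1 : p.qs s.t = p'.qs s.t := hp (Sum.inl 0)
    have k1 : p.qs (s.k (j 2)) = p'.qs (s.k (j 2)) := hp (Sum.inr (Sum.inr (j 2)))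
    have k3 : p.qs (s.k (j 3)) = p'.qs (s.k (j 3)) := hp (Sum.inr (Sum.inr (j 3)))
    unfold al
    rw [map_sub, map_mul, map_sub, map_mul, y1, k1, k3]
  have e1 := V g.pr1
  have e2 := V g.pz1
  have e3 := V g.pzM
  have e4 := V g.prM
  have e5 := V g.pr2
  have e6 := V g.px2
  have l1 : g.pz1.qs (s.l 1) = g.pzM.qs (s.l 1) := g.l1M (Sum.inr 1)
  have l2 : g.prM.qs (s.l 1) = g.pr2.qs (s.l 1) := g.lM2 (Sum.inr 1)
  have u1 : g.pr1.qs s.x = g.uu := rfl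
  rw [u1] at e1
  rw [cbe _ _ g.c1, cal _ _ g.c1, g.x1] at e2
  rw [cbe _ _ g.cM, cal _ _ g.cM, g.xM, ← l1] at e3
  rw [g.uM] at e4
  rw [g.u2, ← l2] at e5
  rw [cbe _ _ g.c2, cal _ _ g.c2, g.x2] at e6
  refine disp_z (Id g.D b) (g.pj0.qs (s.v 1)) (g.pr1.qs (s.v 1)) (g.prM.qs (s.v 1))
    (g.pr2.qs (s.v 1)) (g.pr2.qs (s.v 1) + g.tt * g.px2.qs (s.l 1)) g.ta g.tt g.uu g.xx (g.pr1.qs (s.l 1))
    (g.pz1.qs (s.l 1)) (g.prM.qs (s.l 1)) (g.px2.qs (s.l 1)) (g.pr1.qs (s.be j)) (g.pr1.qs (s.al j))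
    (g.prM.qs (s.be j)) (g.prM.qs (s.al j)) (g.pr2.qs (s.be j)) (g.pr2.qs (s.al j)) (g.prM.qs (s.k (j 3)))
    ?_ ?_ ?_ ?_ e1 e2 e3 e4 e5 e6 ?_
  · rw [z1, sub_self]
    exact Ideal.zero_mem _
  · rw [zM, sub_self]
    exact Ideal.zero_mem _
  · rw [z2, sub_self]
    exact Ideal.zero_mem _
  · rw [sub_self]
    exact Ideal.zero_mem _
  · rw [g.alM, sub_self]
    exact Ideal.zero_mem _

/-- EQUATION (2): one side of the conservation -/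
theorem side (d : s.DH j i u c b rc ρ) (hs : s.Hyp u) (hX : IsUnit (w.p1.qs s.x - w.p2.qs s.x)) :
    g.pr1.qs (s.al j) - g.prM.qs (s.al j) -
      g.tt * (g.prM.qs (s.k (j 3)) - 2 * g.pr1.qs (s.k (j 3))) ∈ Id g.D (b - u) := by
  have hc1 : c ≤ 1 := d.hcu.trans hs.s1
  have hbu1 : b - u ≤ 1 := d.hbu.trans hs.s1
  have hc0 := d.hc0
  obtain ⟨J⟩ := exists_jmp g (s.jf i)
  obtain ⟨F0, hF0⟩ : ∃ F0 : g.D.L, F0 = g.B' ⊔ dg g.R21 1 := ⟨_, rfl⟩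
  have hB0 : g.B' ≤ F0 := by rw [hF0]; exact le_sup_left
  have hR0 : dg g.R21 1 ≤ F0 := by rw [hF0]; exact le_sup_right
  obtain ⟨cs, hcs⟩ : ∃ cs : QS g.D, cs = g.pj0.qs (s.k (i 3)) := ⟨_, rfl⟩
  obtain ⟨g0, hg0⟩ : ∃ g0 : QS g.D, g0 = g.tt * g.prM.qs (s.k (j 3)) - 2 * g.tt * cs -
    (g.pr1.qs (s.al j) - g.prM.qs (s.al j)) := ⟨_, rfl⟩
  have hta := g.tau_id hs
  -- the differences of the vertical coordinate
  have r1 : g.R21 - g.pj0.qs (s.v 0) ∈ Id g.D u := by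
    have e1 : g.R21 - g.pj0.qs (s.v 0) = (2 * (g.uu - g.xx) * g.tt) * g.ta := by rw [g.R21_eq d]; ring
    rw [e1]
    exact (Id g.D u).mul_mem_left _ hta
  have r2 : g.R21 - g.pj0.qs (s.v 0) ∈ Id g.D c := Id_anti d.hcu r1
  have r3 : ∀ r, r ≤ u → g.pj0.map (dg (s.v 0) r) ≤ F0 := by
    intro r hr
    rw [← g.pj0.qs_dg, ← dg_eq_of_sub_mem r1 hr (hr.trans hs.s1)]
    exact (dg_mono g.R21 (hr.trans hs.s1)).trans hR0
  have r4 : ∀ r, r ≤ u → g.pj0.map (s.iso r) ≤ F0 := by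
    intro r hr
    have h1 := (dg_mono (g.pj0.qs s.t) (hr.trans hs.s1)).trans (g.tB.trans hB0)
    have h2 := (dg_mono (g.pj0.qs s.y) (hr.trans hs.s1)).trans (g.yB.trans hB0)
    rw [g.pj0.qs_dg] at h1 h2
    have h3 := r3 r hr
    unfold iso
    rw [g.pj0.map_sup, g.pj0.map_sup]
    order
  have r5 : g.pr2.map s.iM ≤ F0 := by rw [hF0]; exact g.M2B d
  have m1 := g.tB.trans hB0
  have m2 := g.yB.trans hB0
  have m3 := g.uB.trans hB0
  have m4 := g.xB.trans hB0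
  have m6 := g.ttB.trans hB0
  -- the function `g0` is known
  have g1 : dg (g.prM.qs (s.k (j 3))) (b - u) ≤ F0 := by
    rw [g.kM2, g.pr2.qs_dg]
    exact (g.pr2.map_mono (d.hW3.trans (iso_le hc1))).trans r5
  have g2 : dg cs (b - u) ≤ F0 := by
    rw [hcs]
    refine (dg_mono _ d.hbr).trans ?_
    rw [g.pj0.qs_dg]
    exact (g.pj0.map_mono d.hW1).trans (r4 c d.hcu)
  have g3 : dg (g.prM.qs (s.al j)) (b - u) ≤ F0 := by
    have e1 : g.prM.qs (s.al j) - g.pr2.qs (s.al j) ∈ Id g.D u := by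
      rw [g.alM]
      have : g.prM.qs (s.al j) - (g.prM.qs (s.al j) - g.prM.qs (s.k (j 3)) * g.ta) =
        g.prM.qs (s.k (j 3)) * g.ta := by ring
      rw [this]
      exact (Id g.D u).mul_mem_left _ hta
    rw [dg_eq_of_sub_mem e1 d.hbu hbu1, g.pr2.qs_dg]
    exact (g.pr2.map_mono (d.hW2.trans (iso_le hs.s1))).trans r5
  have g4 : dg (g.pr1.qs (s.al j)) (b - u) ≤ F0 := by
    have e1 : g.pr1.qs (s.al j) - g.pj0.qs (s.al j) ∈ Id g.D u := by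
      rw [g.al1]
      have : g.pj0.qs (s.al j) + g.pj0.qs (s.k (j 3)) * g.ta - g.pj0.qs (s.al j) =
        g.pj0.qs (s.k (j 3)) * g.ta := by ring
      rw [this]
      exact (Id g.D u).mul_mem_left _ hta
    rw [dg_eq_of_sub_mem e1 d.hbu hbu1, g.pj0.qs_dg]
    exact (g.pj0.map_mono d.hW2).trans (r4 u le_rfl)
  have g5 : dg g.tt (b - u) ≤ F0 := (dg_mono _ hbu1).trans m6
  have g6 : dg g0 (b - u) ≤ F0 := by
    have e1 : 2 * g.tt * cs = g.tt * cs + g.tt * cs := by ring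
    have e2 := dg_mul_le' g.tt cs hbu1 g5 g2
    rw [hg0, e1]
    exact dg_sub_le' _ _ hbu1 (dg_sub_le' _ _ hbu1 (dg_mul_le' _ _ hbu1 g5 g1) (dg_add_le' _ _ hbu1 e2 e2))
      (dg_sub_le' _ _ hbu1 g4 g3)
  -- the jump
  have j1 : ∀ a, J.r1.qs (g.pj0.qs (s.k (i a))) = J.r2.qs (s.k (i a)) := fun a => J.com (Sum.inr a)
  have j2 : J.r1.qs (g.pj0.qs s.t) = J.r2.qs s.t := J.com (Sum.inl 0)
  have j3 : J.r1.qs (g.pj0.qs s.y) = J.r2.qs s.y := J.com (Sum.inl 1)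
  have hj : J.r1.qs (g.pj0.qs (s.v 1)) - (J.r2.qs (s.v 1) + J.r1.qs cs *
      (J.r1.qs (g.pj0.qs (s.v 0)) - J.r2.qs (s.v 0))) ∈ Id J.D b := by
    have h1 := (J.r1.qs_mem_Id d.hb).mpr ((g.pj0.qs_mem_Id d.hb).mpr d.hJ)
    have h2 := (J.r2.qs_mem_Id d.hb).mpr d.hJ
    have h3 := (Id J.D b).sub_mem h1 h2
    simp only [map_sub, map_add, map_mul] at h3
    rw [j1, j1, j1, j1, j2, j3] at h3
    rw [hcs, j1]
    have e1 : J.r1.qs (g.pj0.qs (s.v 1)) - (J.r2.qs (s.k (i 0)) + J.r2.qs (s.k (i 1)) * J.r2.qs s.t +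
        J.r2.qs (s.k (i 2)) * J.r2.qs s.y + J.r2.qs (s.k (i 3)) * J.r1.qs (g.pj0.qs (s.v 0))) -
        (J.r2.qs (s.v 1) - (J.r2.qs (s.k (i 0)) + J.r2.qs (s.k (i 1)) * J.r2.qs s.t +
        J.r2.qs (s.k (i 2)) * J.r2.qs s.y + J.r2.qs (s.k (i 3)) * J.r2.qs (s.v 0))) =
        J.r1.qs (g.pj0.qs (s.v 1)) - (J.r2.qs (s.v 1) + J.r2.qs (s.k (i 3)) *
        (J.r1.qs (g.pj0.qs (s.v 0)) - J.r2.qs (s.v 0))) := by ring
    rw [e1] at h3
    exact h3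
  have hRh : J.r1.qs g.R21 - J.r2.qs (s.v 0) ∈ Id J.D c := by
    have h1 := (J.r1.qs_mem_Id hc1).mpr ((g.pj0.qs_mem_Id hc1).mpr d.hF)
    have h2 := (J.r2.qs_mem_Id hc1).mpr d.hF
    have h3 := (Id J.D c).sub_mem h1 h2
    simp only [map_sub, map_add, map_mul] at h3
    rw [j1, j1, j1, j2, j3] at h3
    have h4 := (J.r1.qs_mem_Id hc1).mpr r2
    rw [map_sub] at h4
    have h5 := (Id J.D c).add_mem h3 h4
    have e1 : J.r1.qs (g.pj0.qs (s.v 0)) - (J.r2.qs (s.k (i 4)) + J.r2.qs (s.k (i 5)) * J.r2.qs s.t +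
        J.r2.qs (s.k (i 6)) * J.r2.qs s.y) - (J.r2.qs (s.v 0) - (J.r2.qs (s.k (i 4)) +
        J.r2.qs (s.k (i 5)) * J.r2.qs s.t + J.r2.qs (s.k (i 6)) * J.r2.qs s.y)) +
        (J.r1.qs g.R21 - J.r1.qs (g.pj0.qs (s.v 0))) = J.r1.qs g.R21 - J.r2.qs (s.v 0) := by ring
    rw [e1] at h5
    exact h5
  have hz : J.r1.qs (g.pr2.qs (s.v 1)) + J.r1.qs (g.tt * g.px2.qs (s.l 1)) - (J.r2.qs (s.v 1) +
      J.r1.qs cs * (J.r1.qs g.R21 - J.r2.qs (s.v 0)) + J.r1.qs (g.uu - g.xx) * J.r1.qs g.ta * J.r1.qs g0) ∈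
      Id J.D b := by
    have h1 := (J.r1.qs_mem_Id d.hb).mpr (g.disp d)
    have h2 := (J.r1.qs_mem_Id d.hb).mpr (show g.R21 - (g.pj0.qs (s.v 0) + 2 * (g.uu - g.xx) * g.tt * g.ta) ∈
      Id g.D b by rw [g.R21_eq d, sub_self]; exact Ideal.zero_mem _)
    simp only [map_sub, map_add, map_mul, map_ofNat] at h1 h2
    have h3 := disp_jump (Id J.D b) (J.r1.qs (g.pj0.qs (s.v 1)))
      (J.r1.qs (g.pr2.qs (s.v 1)) + J.r1.qs g.tt * J.r1.qs (g.px2.qs (s.l 1))) (J.r1.qs (g.pj0.qs (s.v 0)))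
      (J.r1.qs g.R21) (J.r2.qs (s.v 1)) (J.r2.qs (s.v 0)) (J.r1.qs cs) (J.r1.qs g.ta) (J.r1.qs g.tt)
      (J.r1.qs g.uu) (J.r1.qs g.xx) (J.r1.qs (g.prM.qs (s.k (j 3))))
      (J.r1.qs (g.pr1.qs (s.al j)) - J.r1.qs (g.prM.qs (s.al j))) h1 h2 hj
    rw [hg0]
    simp only [map_sub, map_mul, map_ofNat]
    exact h3
  -- absorption
  obtain ⟨F, hF⟩ : ∃ F : J.D.L, F = J.r1.map F0 ⊔ J.r2.map (dg (s.v 0) 1) := ⟨_, rfl⟩
  have hF1 : J.r1.map F0 ≤ F := by rw [hF]; exact le_sup_left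
  have hF2 : J.r2.map (dg (s.v 0) 1) ≤ F := by rw [hF]; exact le_sup_right
  have known : ∀ (f : QS g.D) (r : ℝ), dg f r ≤ F0 → dg (J.r1.qs f) r ≤ F := by
    intro f r hf
    rw [J.r1.qs_dg]
    exact (J.r1.map_mono hf).trans hF1
  have res : J.r1.qs g0 ∈ Id J.D (b - u) := by
    refine absorb (J.r1.qs (g.pr2.qs (s.v 1))) (J.r1.qs (g.tt * g.px2.qs (s.l 1))) (J.r2.qs (s.v 1))
      (J.r1.qs cs * (J.r1.qs g.R21 - J.r2.qs (s.v 0))) (J.r1.qs (g.uu - g.xx)) (J.r1.qs g.ta) (J.r1.qs g0)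
      F b u ρ d.hρ hs.s0 d.hub d.hb hz ?_ ?_ ?_ ?_ ?_ ?_ ?_ ?_
    · apply known
      apply dg_mul_le' _ _ d.hb ((dg_mono _ d.hb).trans m6)
      rw [g.px2.qs_dg]
      refine (g.px2.map_mono d.hS).trans ?_
      rw [g.px2.map_sup]
      apply sup_le
      · have e1 : g.px2.map s.iM = g.pr2.map s.iM := by
          have f1 := map_dg_eq (g.c2 (Sum.inl 0)) 1
          have f2 := map_dg_eq (g.c2 (Sum.inl 1)) 1
          have f3 := map_dg_eq (g.c2 (Sum.inr (Sum.inl 0))) 1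
          have f1' : g.px2.map s.iT = g.pr2.map s.iT := f1
          have f2' : g.px2.map s.iY = g.pr2.map s.iY := f2
          have f3' : g.px2.map (dg (s.v 0) 1) = g.pr2.map (dg (s.v 0) 1) := f3
          unfold iM
          rw [g.px2.map_sup, g.px2.map_sup, g.pr2.map_sup, g.pr2.map_sup, f1', f2', f3']
        rw [e1]
        exact r5
      · unfold iX
        rw [← g.px2.qs_dg, g.x2]
        exact m4
    · have hbc1 : b - c ≤ 1 := by linarith [d.hb]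
      have e1 : c + (b - c) ≤ 1 := by linarith [d.hb]
      have e2 := dg_mul_small (J.r1.qs cs) (J.r1.qs g.R21 - J.r2.qs (s.v 0)) e1 hbc1 hc1 hRh
      have e3 : c + (b - c) = b := by ring
      rw [e3] at e2
      refine e2.trans (sup_le ?_ ?_)
      · apply known
        rw [hcs]
        refine (dg_mono _ d.hbc).trans ?_
        rw [g.pj0.qs_dg]
        exact (g.pj0.map_mono d.hW1).trans (r4 c d.hcu)
      · apply dg_sub_le' _ _ d.hb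
        · exact known _ _ ((dg_mono _ d.hb).trans hR0)
        · refine (dg_mono _ d.hb).trans ?_
          rw [J.r2.qs_dg]
          exact hF2
    · have e1 : g.uu - g.xx = (g.s1.comp v.q1).qs (w.p1.qs s.x - w.p2.qs s.x) := by
        rw [map_sub, Pj.comp_qs, Pj.comp_qs, ← g.pr0_qs, ← g.pj0_qs, g.u0]
        rfl
      rw [e1]
      exact (hX.map (g.s1.comp v.q1).qs).map J.r1.qs
    · exact known _ _ (dg_sub_le' _ _ le_rfl m3 m4)
    · exact (J.r1.qs_mem_Id hs.s1).mpr hta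
    · have e1 := J.fine hs hc1 jf_le (s.v 0) (s.v 1) ((le_sup_right.trans (le_refl s.iM)).trans iM_le) d.hI g.R21
        r2 (g.R21_le d) (w.p1.map s.iM ⊔ w.p2.map s.iX) g.R21_le'
      have e2 : J.r1.map g.itau = dg (J.r1.qs g.ta) 1 := by rw [J.r1.qs_dg, g.itau_ta]
      have e3 : J.r1.map (g.B' ⊔ dg g.R21 1) ⊔ J.r2.map (dg (s.v 0) 1 ⊔ dg (s.v 1) 1) =
          F ⊔ dg (J.r2.qs (s.v 1)) 1 := by
        rw [← hF0, hF, J.r2.qs_dg, J.r2.map_sup, sup_assoc]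
      rw [e2, e3] at e1
      apply le_antisymm _ e1
      exact h_small hs.s1 ((J.r1.qs_mem_Id hs.s1).mpr hta) _
    · exact known _ _ g6
    · exact ((d.hU.pull g.pr2).pull J.r1).mono ((J.r1.map_mono r5).trans hF1)
  have res2 : g0 ∈ Id g.D (b - u) := (J.r1.qs_mem_Id hbu1).mp res
  -- the two labels of the first vertex
  have hC : g.pr1.qs (s.k (j 3)) - cs ∈ Id g.D (b - u) := by
    have h1 := (g.pj0.qs_mem_Id hbu1).mpr d.hC
    rw [map_sub, g.k0, ← hcs] at h1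
    exact h1
  have h2 := (Id g.D (b - u)).mul_mem_left (2 * g.tt) hC
  have h3 := (Id g.D (b - u)).sub_mem ((Id g.D (b - u)).neg_mem res2) ((Id g.D (b - u)).neg_mem h2)
  have e1 : -g0 - -(2 * g.tt * (g.pr1.qs (s.k (j 3)) - cs)) =
      g.pr1.qs (s.al j) - g.prM.qs (s.al j) -
      g.tt * (g.prM.qs (s.k (j 3)) - 2 * g.pr1.qs (s.k (j 3))) := by
    rw [hg0]
    ring
  rw [e1] at h3
  exact h3

/-- CONSERVATION: the frame at the two vertices of the common macroscopic line is the same up to level `b - u` -/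
theorem frame_eq (d : s.DH j i u c b rc ρ) (hs : s.Hyp u) (hX : IsUnit (w.p1.qs s.x - w.p2.qs s.x)) (a : Fin 4) :
    g.s1.qs (v.q2.qs (w.p1.qs (s.k (j a)))) - g.s2.qs (v.q2.qs (w.p1.qs (s.k (j a)))) ∈ Id g.D (b - u) := by
  have hbu1 : b - u ≤ 1 := d.hbu.trans hs.s1
  have hbb : b - u ≤ b := by linarith [hs.s0]
  obtain ⟨-, ⟨yM, RM, zM⟩, -⟩ := g.vert d
  have tM := g.tM_eq
  have s1 := g.side d hs hX
  have s2 := g.swap.side d hs hX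
  have t3 : g.swap.tt = -g.tt := by
    have : -g.tt = g.pr2.qs s.t - g.pr0.qs s.t := by
      unfold tt
      ring
    rw [this]
    rfl
  have s2' : g.prM.qs (s.al j) - g.pr1.qs (s.al j) +
      g.tt * (g.pr1.qs (s.k (j 3)) - 2 * g.prM.qs (s.k (j 3))) ∈ Id g.D (b - u) := by
    rw [t3] at s2
    have e1 : g.prM.qs (s.al j) - g.pr1.qs (s.al j) +
        g.tt * (g.pr1.qs (s.k (j 3)) - 2 * g.prM.qs (s.k (j 3))) = g.prM.qs (s.al j) - g.pr1.qs (s.al j) -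
        -g.tt * (g.pr1.qs (s.k (j 3)) - 2 * g.prM.qs (s.k (j 3))) := by ring
    rw [e1]
    exact s2
  have cbe : ∀ (p p' : Pj g.D S), (∀ a, p.qs (s.fp a) = p'.qs (s.fp a)) →
      p.qs (s.be j) = p'.qs (s.be j) ∧ p.qs (s.al j) = p'.qs (s.al j) := by
    intro p p' hp
    have t1 : p.qs s.t = p'.qs s.t := hp (Sum.inl 0)
    have y1 : p.qs s.y = p'.qs s.y := hp (Sum.inl 1)
    have k1 : p.qs (s.k (j 1)) = p'.qs (s.k (j 1)) := hp (Sum.inr (Sum.inr (j 1)))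
    have k2 : p.qs (s.k (j 2)) = p'.qs (s.k (j 2)) := hp (Sum.inr (Sum.inr (j 2)))
    have k3 : p.qs (s.k (j 3)) = p'.qs (s.k (j 3)) := hp (Sum.inr (Sum.inr (j 3)))
    unfold be al
    rw [map_add, map_mul, map_add, map_mul, map_sub, map_mul, map_sub, map_mul, y1, k1, k3, k2, t1]
    exact ⟨rfl, rfl⟩
  have V : ∀ p : Pj g.D S, p.qs (s.l 1) - (p.qs (s.be j) + p.qs (s.al j) * p.qs s.x) ∈ Id g.D (b - u) := by
    intro p
    have := (p.qs_mem_Id d.hb).mpr d.hV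
    rw [map_sub, map_add, map_mul] at this
    exact Id_anti hbb this
  have v1 := V g.pz1
  have v2 := V g.pzM
  have l1 : g.pz1.qs (s.l 1) = g.pzM.qs (s.l 1) := g.l1M (Sum.inr 1)
  rw [(cbe _ _ g.c1).1, (cbe _ _ g.c1).2, g.x1] at v1
  rw [(cbe _ _ g.cM).1, (cbe _ _ g.cM).2, g.xM, ← l1] at v2
  have t3' : IsUnit (3 * g.tt) := by
    have h1 := isUnit_nat (S := g.D) 3 (by norm_num)
    have h2 : ((3 : ℕ) : QS g.D) = 3 := by norm_num
    rw [h2] at h1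
    exact h1.mul (g.tt_unit hs)
  have key := conserved (Id g.D (b - u)) (g.prM.qs s.t) (g.pr1.qs s.t) (g.prM.qs s.y) (g.pr1.qs s.y)
    (g.prM.qs (s.v 0)) (g.pr1.qs (s.v 0)) (g.prM.qs (s.v 1)) (g.pr1.qs (s.v 1)) g.xx g.tt (g.prM.qs (s.al j))
    (g.pr1.qs (s.al j)) (g.prM.qs (s.be j)) (g.pr1.qs (s.be j)) (g.prM.qs (s.k (j 3))) (g.pr1.qs (s.k (j 3)))
    t3' (by
      rw [tM]
      have : g.pr1.qs s.t - (g.pr1.qs s.t + -g.tt + g.tt) = 0 := by ring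
      rw [this]
      exact Ideal.zero_mem _) (by
      rw [yM]
      have : g.pr1.qs s.y - (g.pr1.qs s.y - g.tt * g.xx + g.tt * g.xx) = 0 := by ring
      rw [this]
      exact Ideal.zero_mem _) (by
      rw [RM, yM, tM]
      have : g.pr1.qs (s.v 0) - (g.pr1.qs (s.v 0) - g.tt * (g.pr1.qs s.y - g.pr1.qs s.t * g.xx) +
        g.tt * (g.pr1.qs s.y - g.tt * g.xx - (g.pr1.qs s.t + -g.tt) * g.xx)) = 0 := by ring
      rw [this]
      exact Ideal.zero_mem _) (by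
      rw [zM]
      have : g.pr1.qs (s.v 1) - (g.pr1.qs (s.v 1) - g.tt * g.pz1.qs (s.l 1) +
        g.tt * (g.prM.qs (s.be j) + g.prM.qs (s.al j) * g.xx)) =
        g.tt * (g.pz1.qs (s.l 1) - (g.prM.qs (s.be j) + g.prM.qs (s.al j) * g.xx)) := by ring
      rw [this]
      exact (Id g.D (b - u)).mul_mem_left _ v2) (by
      have h1 := (Id g.D (b - u)).sub_mem v2 v1
      have : g.pz1.qs (s.l 1) - (g.prM.qs (s.be j) + g.prM.qs (s.al j) * g.xx) -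
        (g.pz1.qs (s.l 1) - (g.pr1.qs (s.be j) + g.pr1.qs (s.al j) * g.xx)) =
        g.pr1.qs (s.be j) + g.pr1.qs (s.al j) * g.xx - (g.prM.qs (s.be j) + g.prM.qs (s.al j) * g.xx) := by ring
      rw [this] at h1
      exact h1) s1 s2'
  obtain ⟨k3, k2, k1, k0⟩ := key
  have al_eq : ∀ p : Pj g.D S, p.qs (s.al j) + p.qs (s.k (j 3)) * p.qs s.t = p.qs (s.k (j 2)) := by
    intro p
    unfold al
    rw [map_sub, map_mul]
    ring
  have be_eq : ∀ p : Pj g.D S, p.qs (s.be j) - p.qs (s.k (j 3)) * p.qs s.y = p.qs (s.k (j 1)) := by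
    intro p
    unfold be
    rw [map_add, map_mul]
    ring
  rw [al_eq, al_eq] at k2
  rw [be_eq, be_eq] at k1
  rw [al_eq, al_eq, be_eq, be_eq] at k0
  rw [← g.pr1_qs, ← g.prM_qs]
  fin_cases a
  · have Z : ∀ p : Pj g.D S, p.qs (s.v 1) - (p.qs (s.k (j 0)) + p.qs (s.k (j 1)) * p.qs s.t +
        p.qs (s.k (j 2)) * p.qs s.y + p.qs (s.k (j 3)) * p.qs (s.v 0)) ∈ Id g.D (b - u) := by
      intro p
      have := (p.qs_mem_Id hbu1).mpr d.hJ2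
      simp only [map_sub, map_add, map_mul] at this
      exact this
    have h1 := (Id g.D (b - u)).add_mem ((Id g.D (b - u)).sub_mem (Z g.prM) (Z g.pr1)) k0
    have e1 : g.prM.qs (s.v 1) - (g.prM.qs (s.k (j 0)) + g.prM.qs (s.k (j 1)) * g.prM.qs s.t +
        g.prM.qs (s.k (j 2)) * g.prM.qs s.y + g.prM.qs (s.k (j 3)) * g.prM.qs (s.v 0)) -
        (g.pr1.qs (s.v 1) - (g.pr1.qs (s.k (j 0)) + g.pr1.qs (s.k (j 1)) * g.pr1.qs s.t +
        g.pr1.qs (s.k (j 2)) * g.pr1.qs s.y + g.pr1.qs (s.k (j 3)) * g.pr1.qs (s.v 0))) +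
        (g.pr1.qs (s.v 1) - g.pr1.qs (s.k (j 1)) * g.pr1.qs s.t - g.pr1.qs (s.k (j 2)) * g.pr1.qs s.y -
        g.pr1.qs (s.k (j 3)) * g.pr1.qs (s.v 0) - (g.prM.qs (s.v 1) - g.prM.qs (s.k (j 1)) * g.prM.qs s.t -
        g.prM.qs (s.k (j 2)) * g.prM.qs s.y - g.prM.qs (s.k (j 3)) * g.prM.qs (s.v 0))) =
        g.pr1.qs (s.k (j 0)) - g.prM.qs (s.k (j 0)) := by ring
    rw [e1] at h1
    exact h1
  · exact k1
  · exact k2
  · exact k3

end Rct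

end TS

end

end Pool.Agent.Helper81.TP
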