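import Pool.Agent.Helper81.TP.Blk

/-! The rectangle of the thin parallelogram: two thin Z-shapes with a common second parallel line, the same direction
of the other lines and the same difference of heights; the jump at the first vertex; the final count. -/

set_option autoImplicit false

namespace Pool.Agent.Helper81.TP

open Pool.Agent.Helper31.EC Pool.Agent.Helper38.NS QS

noncomputable section

namespace TS

variable {S : Sp} {ν μ κ : Type} [Fintype ν] [Fintype μ] [Fintype κ] {s : TS S ν μ κ}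

/-- rectangle: two thin Z-shapes with the same second parallel line, the same direction of the first lines and the same
difference of the heights -/
structure Rct {w : s.Star} (v : s.Zed w) where
  D : Sp
  s1 : Pj D v.D
  s2 : Pj D v.D
  cl : ∀ i, s1.qs (v.q2.qs (w.p2.qs (s.fl i))) = s2.qs (v.q2.qs (w.p2.qs (s.fl i)))
  cu : s1.qs (v.q2.qs (w.p1.qs s.x)) = s2.qs (v.q2.qs (w.p1.qs s.x))
  ct : s1.qs v.tau = s2.qs v.tau
  ci : ∀ x y, I (s1.map x) (s2.map y) (s1.map (v.K' ⊔ v.U ⊔ dg v.tau 1)) = 0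

theorem exists_rct {w : s.Star} (v : s.Zed w) : Nonempty (Rct v) := by
  obtain ⟨D, s1, s2, c, i, -⟩ := exists_copyS
    (Sum.elim (fun i => v.q2.qs (w.p2.qs (s.fl i))) ![v.q2.qs (w.p1.qs s.x), v.tau])
  refine ⟨⟨D, s1, s2, fun j => c (Sum.inl j), c (Sum.inr 0), c (Sum.inr 1), ?_⟩⟩
  have h2 : vd (fun i => v.q2.qs (w.p2.qs (s.fl i))) 1 = v.K' := by
    rw [v.q2.qs_vd, w.p2.qs_vd]; rfl
  have h3 : dg (v.q2.qs (w.p1.qs s.x)) 1 = v.U := by
    rw [v.q2.qs_dg, w.p1.qs_dg]; rfl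
  rw [vd_sum, vd_two, h2, h3, ← sup_assoc] at i
  exact i

namespace Rct

variable {w : s.Star} {v : s.Zed w} (g : Rct v)

theorem eK' : g.s2.map v.K' = g.s1.map v.K' := by
  have h1 := map_vd_eq (S := v.D) (p := g.s1) (p' := g.s2) (f := fun i => v.q2.qs (w.p2.qs (s.fl i))) g.cl 1
  rw [v.q2.qs_vd, w.p2.qs_vd] at h1
  exact h1.symm

theorem eU : g.s2.map v.U = g.s1.map v.U := by
  have h1 := map_dg_eq g.cu 1
  rw [v.q2.qs_dg, w.p1.qs_dg] at h1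
  exact h1.symm

theorem etau : g.s2.map (dg v.tau 1) = g.s1.map (dg v.tau 1) := (map_dg_eq g.ct 1).symm

/-- the exchange of the two Z-shapes -/
def swap : Rct v where
  D := g.D
  s1 := g.s2
  s2 := g.s1
  cl := fun i => (g.cl i).symm
  cu := g.cu.symm
  ct := g.ct.symm
  ci := fun x y => by
    rw [g.s2.map_sup, g.s2.map_sup, g.eK', g.eU, g.etau, ← g.s1.map_sup, ← g.s1.map_sup]
    exact ind_symm (g.ci y x)

/-- the height of the second Z-shape on the common line is real over the first Z-shape -/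
theorem f1 {u : ℝ} (hs : s.Hyp u) (y : v.D.L) : 1 ≤ h (g.s2.map v.T0') (g.s1.map y) := by
  have h1 : I (g.s2.map v.T0') (g.s1.map y) (g.s1.map (v.K' ⊔ v.U ⊔ dg v.tau 1)) = 0 :=
    ind_symm (g.ci y v.T0')
  rw [I_zero_iff_h] at h1
  have h2 : g.s2.map (v.K' ⊔ v.U ⊔ dg v.tau 1) = g.s1.map (v.K' ⊔ v.U ⊔ dg v.tau 1) := by
    rw [g.s2.map_sup, g.s2.map_sup, g.eK', g.eU, g.etau, ← g.s1.map_sup, ← g.s1.map_sup]
  calc 1 ≤ h v.T0' (v.K' ⊔ v.U ⊔ dg v.tau 1) := v.e3 hs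
    _ = h (g.s2.map v.T0') (g.s1.map (v.K' ⊔ v.U ⊔ dg v.tau 1)) := by rw [← h2, g.s2.h_map]
    _ = h (g.s2.map v.T0') (g.s1.map y ⊔ g.s1.map (v.K' ⊔ v.U ⊔ dg v.tau 1)) := h1.symm
    _ ≤ h (g.s2.map v.T0') (g.s1.map y) := h_anti le_sup_left

/-- the other height as well -/
theorem f2 {u : ℝ} (hs : s.Hyp u) (y : v.D.L) : 1 ≤ h (g.s2.map v.T0) (g.s1.map y) := by
  have h1 := g.f1 hs (y ⊔ dg v.tau 1)
  have a1 : g.s2.map v.T0' ≤ g.s2.map v.T0 ⊔ g.s1.map (dg v.tau 1) := by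
    have := g.s2.map_mono v.T0'_le
    rwa [g.s2.map_sup, g.etau] at this
  rw [g.s1.map_sup] at h1
  calc 1 ≤ h (g.s2.map v.T0') (g.s1.map y ⊔ g.s1.map (dg v.tau 1)) := h1
    _ ≤ h (g.s2.map v.T0 ⊔ (g.s1.map y ⊔ g.s1.map (dg v.tau 1))) (g.s1.map y ⊔ g.s1.map (dg v.tau 1)) :=
        h_mono (by order)
    _ = h (g.s2.map v.T0) (g.s1.map y ⊔ g.s1.map (dg v.tau 1)) := h_sup_right_of_le le_rfl
    _ ≤ h (g.s2.map v.T0) (g.s1.map y) := h_anti le_sup_left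

/-- the projection to the first vertex, along the second line of its star -/
def pj0 : Pj g.D S := (g.s1.comp v.q1).comp w.p2

theorem pj0_map (y : S.L) : g.pj0.map y = g.s1.map (v.q1.map (w.p2.map y)) := by
  unfold pj0
  rw [Pj.comp_map, Pj.comp_map]

theorem pj0_qs (f : QS S) : g.pj0.qs f = g.s1.qs (v.q1.qs (w.p2.qs f)) := by
  unfold pj0
  rw [Pj.comp_qs, Pj.comp_qs]

/-- the point with labels at the first vertex -/
def iP0 : g.D.L := g.pj0.map s.iP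
/-- direction of the common lines (thin), of the parallel lines (macroscopic), difference of heights, height -/
def iU : g.D.L := g.s1.map v.U
def iX1 : g.D.L := g.s1.map (v.q1.map (w.p2.map s.iX))
def itau : g.D.L := g.s1.map (dg v.tau 1)
def iT1 : g.D.L := g.s2.map v.T0

theorem itau_eq : g.itau = dg (g.s1.qs v.tau) 1 := by
  unfold itau
  rw [g.s1.qs_dg]

theorem iT1_eq : g.iT1 = dg (g.s2.qs (v.q1.qs (w.p1.qs s.t))) 1 := by
  unfold iT1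
  rw [v.T0_eq, g.s2.qs_dg]

theorem h_itau_le {u : ℝ} (hs : s.Hyp u) (A : g.D.L) : h g.itau A ≤ 1 - u := by
  rw [g.itau_eq]
  exact h_small hs.s1 ((g.s1.qs_mem_Id hs.s1).mpr (v.tau_mem hs)) _

theorem h_iT1_le (A : g.D.L) : h g.iT1 A ≤ 1 := by
  rw [g.iT1_eq]
  exact h_dg1 _ _

/-- THE BLOCK IS INDEPENDENT OF THE POINT at the first vertex and its labels -/
theorem g1 {u : ℝ} (hs : s.Hyp u) : I g.iP0 (g.iU ⊔ g.iX1 ⊔ g.itau ⊔ g.iT1) ⊥ = 0 := by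
  have b1 : I g.iP0 (g.iU ⊔ g.iX1) ⊥ = 0 := by
    have h1 := (g.s1.comp v.q1).I_map (w.p1.map s.iP) (w.p1.map s.iX ⊔ w.p2.map s.iX) ⊥
    rw [w.d4 hs, Pj.map_bot, ← w.eP, Pj.map_sup] at h1
    simp only [Pj.comp_map] at h1
    rw [v.eU, ← g.pj0_map] at h1
    exact h1
  have b2 : I g.iP0 g.itau (g.iU ⊔ g.iX1) = 0 := by
    apply ind_symm
    have h1 := g.s1.h_map (dg v.tau 1) (v.q1.map (w.p2.map s.iP ⊔ (w.p1.map s.iX ⊔ w.p2.map s.iX)))
    have h2 := v.e2 hs (w.p2.map s.iP ⊔ (w.p1.map s.iX ⊔ w.p2.map s.iX))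
    rw [← h1] at h2
    rw [v.q1.map_sup, v.q1.map_sup, v.eU, g.s1.map_sup, g.s1.map_sup, ← g.pj0_map] at h2
    exact I_of_max (M := 1 - u) (g.h_itau_le hs _) h2
  have b3 : I g.iP0 g.iT1 (g.iU ⊔ g.iX1 ⊔ g.itau) = 0 := by
    apply ind_symm
    have h2 := g.f2 hs (v.q1.map (w.p2.map s.iP) ⊔ (v.U ⊔ v.q1.map (w.p2.map s.iX) ⊔ dg v.tau 1))
    rw [g.s1.map_sup, g.s1.map_sup, g.s1.map_sup, ← g.pj0_map] at h2
    exact I_of_max (M := 1) (g.h_iT1_le _) h2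
  exact ind_add (ind_add b1 b2 (by rw [sup_bot_eq])) b3 (by rw [sup_bot_eq])

/-- the difference of heights is real beyond level `u` over the first star and the other height -/
theorem g2 {u : ℝ} (hs : s.Hyp u) (y : w.D.L) : 1 - u ≤ h g.itau (g.s1.map (v.q1.map y) ⊔ g.iT1) := by
  have h1 : 1 - u ≤ h g.itau (g.s1.map (v.q1.map y)) := by
    unfold itau
    rw [g.s1.h_map]
    exact v.e2 hs y
  have h2 : I g.itau g.iT1 (g.s1.map (v.q1.map y)) = 0 := by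
    apply ind_symm
    have h2 := g.f2 hs (dg v.tau 1 ⊔ v.q1.map y)
    rw [g.s1.map_sup] at h2
    exact I_of_max (M := 1) (g.h_iT1_le _) h2
  rw [I_zero_iff_h, sup_comm] at h2
  rw [h2]
  exact h1

/-- the two outer parallel lines lie over the same base line -/
theorem base_eq : g.s1.qs (v.q1.qs (w.p2.qs s.a)) = g.s2.qs (v.q1.qs (w.p2.qs s.a)) := by
  have h1 : ∀ q : Pj v.D w.D, q.qs (w.p1.qs s.a) + q.qs (w.p1.qs s.t) * q.qs (w.p1.qs s.x) =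
      q.qs (w.p2.qs s.a) + q.qs (w.p1.qs s.t) * q.qs (w.p2.qs s.x) := by
    intro q
    have h2 := w.cy
    unfold y at h2
    rw [map_add, map_mul, map_add, map_mul, ← w.ct] at h2
    have h3 := congrArg q.qs h2
    rwa [map_add, map_mul, map_add, map_mul] at h3
  have ca : v.q1.qs (w.p1.qs s.a) = v.q2.qs (w.p1.qs s.a) := v.cl (Sum.inl 0)
  have cu : v.q1.qs (w.p1.qs s.x) = v.q2.qs (w.p1.qs s.x) := v.cl (Sum.inl 1)
  have hz : v.q1.qs (w.p2.qs s.a) = v.q2.qs (w.p2.qs s.a) +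
      v.tau * (v.q2.qs (w.p1.qs s.x) - v.q2.qs (w.p2.qs s.x)) := by
    have e1 := h1 v.q1
    have e2 := h1 v.q2
    rw [ca, cu, v.cx] at e1
    unfold Zed.tau
    linear_combination (-1 : QS v.D) * e1 + e2
  have e1 := congrArg g.s1.qs hz
  have e2 := congrArg g.s2.qs hz
  rw [map_add, map_mul, map_sub] at e1 e2
  have c1 : g.s1.qs (v.q2.qs (w.p2.qs s.a)) = g.s2.qs (v.q2.qs (w.p2.qs s.a)) := g.cl (Sum.inl 0)
  have c2 : g.s1.qs (v.q2.qs (w.p2.qs s.x)) = g.s2.qs (v.q2.qs (w.p2.qs s.x)) := g.cl (Sum.inl 1)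
  rw [c1, c2, g.cu, g.ct] at e1
  rw [e1, e2]

end Rct

/-- the jump at the first vertex: a copy of the point given finitely many label functions `f` -/
structure Jmp {w : s.Star} {v : s.Zed w} (g : Rct v) {ι : Type} [Fintype ι] (f : ι → QS S) where
  D : Sp
  r1 : Pj D g.D
  r2 : Pj D S
  com : ∀ i, r1.qs (g.pj0.qs (f i)) = r2.qs (f i)
  cv : r1.map (g.pj0.map (vd f 1)) = r2.map (vd f 1)
  ci : ∀ x y, I (r1.map x) (r2.map y) (r1.map (g.pj0.map (vd f 1))) = 0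

theorem exists_jmp {w : s.Star} {v : s.Zed w} (g : Rct v) {ι : Type} [Fintype ι] (f : ι → QS S) :
    Nonempty (Jmp g f) := by
  obtain ⟨D, r1, r2, c, i, e⟩ := exists_copyF g.pj0 f
  exact ⟨⟨D, r1, r2, c, e 1, i⟩⟩

namespace Jmp

variable {w : s.Star} {v : s.Zed w} {g : Rct v} {ι : Type} [Fintype ι] {f : ι → QS S} (J : Jmp g f)

/-- the block -/
def B : J.D.L := J.r1.map (g.iU ⊔ g.iX1 ⊔ g.itau ⊔ g.iT1)
/-- the block without the difference of heights, with the base point of the first vertex -/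
def B' : J.D.L := J.r1.map (g.pj0.map (s.iT ⊔ s.iY) ⊔ (g.iU ⊔ g.iX1 ⊔ g.iT1))

/-- everything in the old point and everything in the new copy, jointly independent of the block -/
theorem j1 {u : ℝ} (hs : s.Hyp u) (hf : vd f 1 ≤ s.iP) (Y : S.L) :
    I (J.r1.map g.iP0 ⊔ J.r2.map Y) J.B ⊥ = 0 := by
  have h1 := J.r1.I_map g.iP0 (g.iU ⊔ g.iX1 ⊔ g.itau ⊔ g.iT1) ⊥
  rw [g.g1 hs, J.r1.map_bot] at h1
  have a1 : J.r1.map (g.pj0.map (vd f 1)) ≤ J.r1.map g.iP0 := J.r1.map_mono (g.pj0.map_mono hf)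
  have h2 : I (J.r2.map Y) J.B (J.r1.map g.iP0) = 0 := by
    have h3 := ind_symm (J.ci (g.iP0 ⊔ (g.iU ⊔ g.iX1 ⊔ g.itau ⊔ g.iT1)) Y)
    rw [J.r1.map_sup] at h3
    refine ind_of h3 a1 (by order) le_sup_left ?_
    exact le_trans le_sup_right le_sup_left
  exact ind_symm (ind_add (ind_symm h1) (ind_symm h2) (by rw [sup_bot_eq]))

/-- THE COUNT. `R`, `zz` functions at the first vertex; the new copy of `R` is close to the old one; `R21` is a function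
which agrees with the old `R` up to level `c` and determines it over the block: then the difference of heights is real
beyond level `u` over the block without it, `R21`, and the new copy -/
theorem count {u c : ℝ} (hs : s.Hyp u) (hf : vd f 1 ≤ s.iP) (hft : s.iT ⊔ s.iY ≤ vd f 1) (R zz : QS S)
    (hR : dg R 1 ≤ s.iP) (hc1 : c ≤ 1) (hfull : 1 - c ≤ h (dg R 1) (vd f 1))
    (R21 : QS J.D) (hR21 : R21 - J.r2.qs R ∈ Id J.D c)
    (hR12 : J.r1.map (g.pj0.map (dg R 1)) ≤ dg R21 1 ⊔ (J.B' ⊔ J.r1.map g.itau)) :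
    1 - u ≤ h (J.r1.map g.itau) (J.B' ⊔ dg R21 1 ⊔ J.r2.map (dg R 1) ⊔ J.r2.map (dg zz 1)) := by
  obtain ⟨N, hN⟩ : ∃ N : J.D.L, N = J.r2.map (dg R 1) ⊔ J.r2.map (dg zz 1) := ⟨_, rfl⟩
  obtain ⟨τ, hτ⟩ : ∃ τ : J.D.L, τ = J.r1.map g.itau := ⟨_, rfl⟩
  obtain ⟨Rh, hRh⟩ : ∃ Rh : J.D.L, Rh = J.r1.map (g.pj0.map (dg R 1)) := ⟨_, rfl⟩
  obtain ⟨q, hq⟩ : ∃ q : J.D.L, q = J.r1.map (g.pj0.map (s.iT ⊔ s.iY)) := ⟨_, rfl⟩
  obtain ⟨vf, hvf⟩ : ∃ vf : J.D.L, vf = J.r1.map (g.pj0.map (vd f 1)) := ⟨_, rfl⟩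
  obtain ⟨b, hb⟩ : ∃ b : J.D.L, b = J.r1.map (g.iU ⊔ g.iX1 ⊔ g.iT1) := ⟨_, rfl⟩
  have hB : J.B = b ⊔ τ := by
    unfold B
    rw [hb, hτ, ← J.r1.map_sup]
    congr 1
    order
  have hB' : J.B' = q ⊔ b := by
    unfold B'
    rw [hb, hq, ← J.r1.map_sup]
  have hP0f : vf ≤ J.r1.map g.iP0 := by rw [hvf]; exact J.r1.map_mono (g.pj0.map_mono hf)
  have hP0R : Rh ≤ J.r1.map g.iP0 := by rw [hRh]; exact J.r1.map_mono (g.pj0.map_mono hR)
  have hqf : q ≤ vf := by rw [hvf, hq]; exact J.r1.map_mono (g.pj0.map_mono hft)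
  -- independence of the block and the copies
  have i1 : I (J.r1.map g.iP0 ⊔ N) (b ⊔ τ) ⊥ = 0 := by
    have := J.j1 hs hf (dg R 1 ⊔ dg zz 1)
    rw [J.r2.map_sup, ← hN, hB] at this
    exact this
  -- (1) the difference of heights over the block, the base point and the new copy
  have c1 : 1 - u ≤ h τ (q ⊔ b ⊔ N) := by
    have i2 := (I_decomp i1).2
    rw [I_zero_iff_h', sup_bot_eq] at i2
    have i3 := g.g2 hs (w.p1.map s.iX ⊔ w.p2.map s.iX)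
    rw [v.q1.map_sup, v.eU, g.s1.map_sup] at i3
    have i4 := J.r1.h_map g.itau (g.s1.map v.U ⊔ g.s1.map (v.q1.map (w.p2.map s.iX)) ⊔ g.iT1)
    rw [← i4] at i3
    have i5 : J.r1.map (g.s1.map v.U ⊔ g.s1.map (v.q1.map (w.p2.map s.iX)) ⊔ g.iT1) = b := by
      rw [hb]; rfl
    rw [i5, ← hτ, ← i2] at i3
    exact i3.trans (h_anti (by order))
  -- (2) the old function over the block and the new copy
  have c2 : 1 - c ≤ h Rh (τ ⊔ (q ⊔ b ⊔ N)) := by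
    have i2 : I Rh (b ⊔ τ) vf = 0 :=
      ind_symm (ind_of (ind_symm i1) bot_le (by order) le_sup_left (by order))
    have i3 : I Rh N (vf ⊔ (b ⊔ τ)) = 0 := by
      have i4 := J.ci (g.pj0.map (dg R 1) ⊔ (g.iU ⊔ g.iX1 ⊔ g.itau ⊔ g.iT1)) (dg R 1 ⊔ dg zz 1)
      rw [J.r1.map_sup, J.r2.map_sup, ← hN, ← hRh, ← hvf] at i4
      have i5 : J.r1.map (g.iU ⊔ g.iX1 ⊔ g.itau ⊔ g.iT1) = b ⊔ τ := hB
      rw [i5] at i4
      exact ind_symm (ind_of (ind_symm i4) le_sup_left (by order) le_sup_left (by order))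
    rw [I_zero_iff_h] at i2 i3
    have i6 : h Rh vf = h (dg R 1) (vd f 1) := by
      rw [hRh, hvf, J.r1.h_map, g.pj0.h_map]
    calc 1 - c ≤ h Rh vf := by rw [i6]; exact hfull
      _ = h Rh (b ⊔ τ ⊔ vf) := i2.symm
      _ = h Rh (vf ⊔ (b ⊔ τ)) := by rw [sup_comm]
      _ = h Rh (N ⊔ (vf ⊔ (b ⊔ τ))) := i3.symm
      _ ≤ h Rh (τ ⊔ (q ⊔ b ⊔ N)) := h_anti (by order)
  -- (3) the old function over the new copy
  have c3 : h (dg R21 1) (q ⊔ b ⊔ N) ≤ 1 - c := by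
    have e1 : dg R21 1 ≤ dg (R21 - J.r2.qs R) 1 ⊔ J.r2.map (dg R 1) := by
      have e2 := dg_add_le (R21 - J.r2.qs R) (J.r2.qs R) le_rfl
      have e3 : R21 - J.r2.qs R + J.r2.qs R = R21 := by ring
      rw [e3, J.r2.qs_dg] at e2
      exact e2
    have e2 : J.r2.map (dg R 1) ≤ N := by rw [hN]; exact le_sup_left
    calc h (dg R21 1) (q ⊔ b ⊔ N) ≤ h (dg (R21 - J.r2.qs R) 1 ⊔ (q ⊔ b ⊔ N)) (q ⊔ b ⊔ N) :=
          h_mono (by order)
      _ = h (dg (R21 - J.r2.qs R) 1) (q ⊔ b ⊔ N) := h_sup_right_of_le le_rfl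
      _ ≤ 1 - c := h_small hc1 hR21 _
  -- assembly
  have d1 := h_chain (dg R21 1) τ (q ⊔ b ⊔ N)
  have d2 := h_chain τ (dg R21 1) (q ⊔ b ⊔ N)
  rw [sup_comm (dg R21 1) τ] at d1
  have d3 : h Rh (τ ⊔ (q ⊔ b ⊔ N)) ≤ h (dg R21 1) (τ ⊔ (q ⊔ b ⊔ N)) := by
    rw [← hRh, ← hτ, hB'] at hR12
    calc h Rh (τ ⊔ (q ⊔ b ⊔ N)) ≤ h (dg R21 1 ⊔ (τ ⊔ (q ⊔ b ⊔ N))) (τ ⊔ (q ⊔ b ⊔ N)) := h_mono (by order)
      _ = h (dg R21 1) (τ ⊔ (q ⊔ b ⊔ N)) := h_sup_right_of_le le_rfl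
  have d4 : J.B' ⊔ dg R21 1 ⊔ J.r2.map (dg R 1) ⊔ J.r2.map (dg zz 1) = dg R21 1 ⊔ (q ⊔ b ⊔ N) := by
    rw [hB', hN]
    order
  rw [d4, ← hτ]
  linarith

end Jmp

end TS

end

end Pool.Agent.Helper81.TP
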